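import Mathlib

/-!
# Sums of squares attached to a symmetric array of nonnegative numbers

`p a b c` will be the squared norm of the exterior product of the members `a`, `b`, `c` of an
orthonormal basis of the two-forms of a six-dimensional space, `u a` the eigenvalues of a Weyl tensor.
-/

set_option autoImplicit false

namespace Pool.Agent.U486.EW

open Finset

variable {K : Type*} [Fintype K] [DecidableEq K]

/-- the abstract properties of the wedge numbers -/
structure Tri (p : K → K → K → ℝ) (P : K → K → ℝ) (u : K → ℝ) : Prop where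
  p0 : ∀ a b c, 0 ≤ p a b c
  s1 : ∀ a b c, p a b c = p b a c
  s2 : ∀ a b c, p a b c = p a c b
  m1 : ∀ a b, ∑ c, p a b c = P a b
  m2 : ∀ a, ∑ b, P a b = 6
  ev : ∀ a, ∑ b, P a b * u b = u a
  sm : ∑ a, u a = 0
  dg : ∀ a, P a a ≤ 4 / 3
  od : ∀ a b, a ≠ b → P a b ≤ 1

/-- the weights -/
noncomputable def sv (p : K → K → K → ℝ) (u : K → ℝ) (a : K) : ℝ :=
  1 / 2 * ∑ b, ∑ c, p a b c * (u b - u c) ^ 2

variable {p : K → K → K → ℝ} {P : K → K → ℝ} {u : K → ℝ}

omit [DecidableEq K] in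
theorem Tri.symm (T : Tri p P u) (a b : K) : P a b = P b a := by
  rw [← T.m1, ← T.m1]
  exact Finset.sum_congr rfl fun c _ => T.s1 a b c

omit [DecidableEq K] in
theorem Tri.m1' (T : Tri p P u) (a c : K) : ∑ b, p a b c = P a c := by
  rw [← T.m1]
  exact Finset.sum_congr rfl fun b _ => T.s2 a b c

omit [DecidableEq K] in
theorem Tri.m1'' (T : Tri p P u) (b c : K) : ∑ a, p a b c = P b c := by
  rw [← T.m1' b c]
  exact Finset.sum_congr rfl fun a _ => T.s1 a b c

omit [DecidableEq K] in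
theorem Tri.neg (T : Tri p P u) : Tri p P (fun a => - u a) where
  p0 := T.p0
  s1 := T.s1
  s2 := T.s2
  m1 := T.m1
  m2 := T.m2
  ev a := by
    simp only [mul_neg, Finset.sum_neg_distrib, T.ev]
  sm := by rw [Finset.sum_neg_distrib, T.sm, neg_zero]
  dg := T.dg
  od := T.od

omit [DecidableEq K] in
theorem sv_neg (p : K → K → K → ℝ) (u : K → ℝ) (a : K) : sv p (fun a => - u a) a = sv p u a := by
  unfold sv
  congr 1
  exact Finset.sum_congr rfl fun b _ => Finset.sum_congr rfl fun c _ => by ring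

omit [DecidableEq K] in
theorem Tri.sv_nonneg (T : Tri p P u) (a : K) : 0 ≤ sv p u a := by
  unfold sv
  have : 0 ≤ ∑ b, ∑ c, p a b c * (u b - u c) ^ 2 :=
    Finset.sum_nonneg fun b _ => Finset.sum_nonneg fun c _ => mul_nonneg (T.p0 a b c) (sq_nonneg _)
  linarith

/-- second moments -/
def rv (P : K → K → ℝ) (u : K → ℝ) (a : K) : ℝ := ∑ b, P a b * u b ^ 2

/-- mixed moments -/
def qv (p : K → K → K → ℝ) (u : K → ℝ) (a : K) : ℝ := ∑ b, ∑ c, p a b c * (u b * u c)

omit [DecidableEq K] in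
theorem Tri.left (T : Tri p P u) (a : K) (g : K → ℝ) :
    ∑ b, ∑ c, p a b c * g b = ∑ b, P a b * g b := by
  refine Finset.sum_congr rfl fun b _ => ?_
  rw [← Finset.sum_mul, T.m1]

omit [DecidableEq K] in
theorem Tri.right (T : Tri p P u) (a : K) (g : K → ℝ) :
    ∑ b, ∑ c, p a b c * g c = ∑ b, P a b * g b := by
  rw [Finset.sum_comm]
  refine Finset.sum_congr rfl fun b _ => ?_
  rw [← Finset.sum_mul, T.m1']

omit [DecidableEq K] in
theorem Tri.sv_eq' (T : Tri p P u) (g : K → ℝ) (a : K) : sv p g a = rv P g a - qv p g a := by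
  have h1 : ∑ b, ∑ c, p a b c * (g b - g c) ^ 2 =
      ∑ b, ∑ c, p a b c * g b ^ 2 + ∑ b, ∑ c, p a b c * g c ^ 2 -
        2 * ∑ b, ∑ c, p a b c * (g b * g c) := by
    rw [Finset.mul_sum, ← Finset.sum_add_distrib, ← Finset.sum_sub_distrib]
    refine Finset.sum_congr rfl fun b _ => ?_
    rw [Finset.mul_sum, ← Finset.sum_add_distrib, ← Finset.sum_sub_distrib]
    exact Finset.sum_congr rfl fun c _ => by ring
  unfold sv rv qv
  rw [h1, T.left a (fun b => g b ^ 2), T.right a (fun b => g b ^ 2)]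
  ring

omit [DecidableEq K] in
theorem Tri.sv_eq (T : Tri p P u) (a : K) : sv p u a = rv P u a - qv p u a := T.sv_eq' u a

omit [Fintype K] [DecidableEq K] in
theorem sv_shift [Fintype K] (p : K → K → K → ℝ) (g : K → ℝ) (r : ℝ) (a : K) :
    sv p (fun b => g b - r) a = sv p g a := by
  unfold sv
  congr 1
  exact Finset.sum_congr rfl fun b _ => Finset.sum_congr rfl fun c _ => by ring

omit [DecidableEq K] in
theorem Tri.sum_rv (T : Tri p P u) (g : K → ℝ) :
    ∑ a, ∑ b, P a b * g b = 6 * ∑ b, g b := by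
  rw [Finset.sum_comm, Finset.mul_sum]
  refine Finset.sum_congr rfl fun b _ => ?_
  rw [← Finset.sum_mul]
  congr 1
  rw [← T.m2 b]
  exact Finset.sum_congr rfl fun a _ => T.symm a b

omit [DecidableEq K] in
theorem Tri.sum_qv (T : Tri p P u) : ∑ a, qv p u a = ∑ a, u a ^ 2 := by
  unfold qv
  have e1 : ∑ a, ∑ b, ∑ c, p a b c * (u b * u c) = ∑ b, ∑ c, ∑ a, p a b c * (u b * u c) := by
    rw [Finset.sum_comm]
    exact Finset.sum_congr rfl fun b _ => Finset.sum_comm
  rw [e1]
  refine Finset.sum_congr rfl fun b _ => ?_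
  have e2 : ∀ c, ∑ a, p a b c * (u b * u c) = u b * (P b c * u c) := by
    intro c
    rw [← Finset.sum_mul, T.m1'']; ring
  simp only [e2]
  rw [← Finset.mul_sum, T.ev]
  ring

omit [DecidableEq K] in
/-- the sum of the weights -/
theorem Tri.sum_sv (T : Tri p P u) : ∑ a, sv p u a = 5 * ∑ a, u a ^ 2 := by
  simp only [T.sv_eq, Finset.sum_sub_distrib]
  rw [T.sum_qv]
  unfold rv
  rw [T.sum_rv (fun b => u b ^ 2)]
  ring

omit [DecidableEq K] in
/-- the cubic form -/
theorem Tri.cubic (T : Tri p P u) :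
    ∑ a, u a * qv p u a = ∑ a, u a ^ 3 - ∑ a, u a * sv p u a := by
  have h1 : ∀ a, u a * sv p u a = u a * rv P u a - u a * qv p u a := by
    intro a
    rw [T.sv_eq]; ring
  have h2 : ∑ a, u a * rv P u a = ∑ a, u a ^ 3 := by
    unfold rv
    simp only [Finset.mul_sum]
    rw [Finset.sum_comm]
    refine Finset.sum_congr rfl fun b _ => ?_
    have e2 : ∀ a, u a * (P a b * u b ^ 2) = (P b a * u a) * u b ^ 2 := by
      intro a
      rw [T.symm a b]; ring
    simp only [e2]
    rw [← Finset.sum_mul, T.ev]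
    ring
  simp only [h1, Finset.sum_sub_distrib]
  rw [h2]; ring

theorem Tri.rv_le (T : Tri p P u) (a : K) : rv P u a ≤ ∑ b, u b ^ 2 + u a ^ 2 / 3 := by
  unfold rv
  have h1 : ∑ b, P a b * u b ^ 2 ≤ ∑ b, (u b ^ 2 + if b = a then u a ^ 2 / 3 else 0) := by
    refine Finset.sum_le_sum fun b _ => ?_
    by_cases h : b = a
    · subst h
      rw [if_pos rfl]
      have := mul_le_mul_of_nonneg_right (T.dg b) (sq_nonneg (u b))
      linarith
    · rw [if_neg h]
      have := mul_le_mul_of_nonneg_right (T.od a b (Ne.symm h)) (sq_nonneg (u b))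
      linarith
  rw [Finset.sum_add_distrib, Finset.sum_ite_eq'] at h1
  simpa using h1

omit [DecidableEq K] in
/-- upper bound of a weight -/
theorem Tri.sv_le_rv (T : Tri p P u) (a : K) : sv p u a ≤ 2 * rv P u a - u a ^ 2 / 3 := by
  have h0 : 0 ≤ ∑ b, ∑ c, p a b c * (u b + u c - u a / 3) ^ 2 :=
    Finset.sum_nonneg fun b _ => Finset.sum_nonneg fun c _ => mul_nonneg (T.p0 a b c) (sq_nonneg _)
  have h1 : ∑ b, ∑ c, p a b c * (u b + u c - u a / 3) ^ 2 =
      ∑ b, ∑ c, p a b c * u b ^ 2 + ∑ b, ∑ c, p a b c * u c ^ 2 +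
        2 * ∑ b, ∑ c, p a b c * (u b * u c) - 2 / 3 * u a * (∑ b, ∑ c, p a b c * u b) -
        2 / 3 * u a * (∑ b, ∑ c, p a b c * u c) + u a ^ 2 / 9 * ∑ b, ∑ c, p a b c * 1 := by
    rw [Finset.mul_sum, Finset.mul_sum, Finset.mul_sum, Finset.mul_sum, ← Finset.sum_add_distrib,
      ← Finset.sum_add_distrib, ← Finset.sum_sub_distrib, ← Finset.sum_sub_distrib,
      ← Finset.sum_add_distrib]
    refine Finset.sum_congr rfl fun b _ => ?_
    rw [Finset.mul_sum, Finset.mul_sum, Finset.mul_sum, Finset.mul_sum, ← Finset.sum_add_distrib,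
      ← Finset.sum_add_distrib, ← Finset.sum_sub_distrib, ← Finset.sum_sub_distrib,
      ← Finset.sum_add_distrib]
    exact Finset.sum_congr rfl fun c _ => by ring
  rw [T.left a (fun b => u b ^ 2), T.right a (fun b => u b ^ 2), T.left a u, T.right a u,
    T.left a (fun _ => 1), T.ev] at h1
  simp only [mul_one, T.m2] at h1
  rw [T.sv_eq]
  unfold rv
  unfold qv
  rw [h1] at h0
  linarith

omit [DecidableEq K] in
/-- the shifted cubic form -/
theorem Tri.shift (T : Tri p P u) (r : ℝ) :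
    ∑ a, ∑ b, ∑ c, p a b c * ((u a + r) * (u b + r) * (u c + r)) =
      ∑ a, u a ^ 3 - ∑ a, u a * sv p u a + 3 * r * ∑ a, u a ^ 2 + 6 * r ^ 3 * Fintype.card K := by
  have h1 : ∀ a, ∑ b, ∑ c, p a b c * ((u a + r) * (u b + r) * (u c + r)) =
      (u a + r) * (qv p u a + 2 * r * u a + 6 * r ^ 2) := by
    intro a
    have e1 : ∑ b, ∑ c, p a b c * ((u a + r) * (u b + r) * (u c + r)) =
        (u a + r) * (∑ b, ∑ c, p a b c * (u b * u c) + r * ∑ b, ∑ c, p a b c * u b +
          r * ∑ b, ∑ c, p a b c * u c + r ^ 2 * ∑ b, ∑ c, p a b c * 1) := by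
      rw [Finset.mul_sum, Finset.mul_sum, Finset.mul_sum, ← Finset.sum_add_distrib,
        ← Finset.sum_add_distrib, ← Finset.sum_add_distrib, Finset.mul_sum]
      refine Finset.sum_congr rfl fun b _ => ?_
      rw [Finset.mul_sum, Finset.mul_sum, Finset.mul_sum, ← Finset.sum_add_distrib,
        ← Finset.sum_add_distrib, ← Finset.sum_add_distrib, Finset.mul_sum]
      exact Finset.sum_congr rfl fun c _ => by ring
    rw [e1, T.left a u, T.right a u, T.left a (fun _ => 1), T.ev]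
    simp only [mul_one, T.m2]
    unfold qv
    ring
  simp only [h1]
  have h2 : ∀ a, (u a + r) * (qv p u a + 2 * r * u a + 6 * r ^ 2) =
      u a * qv p u a + r * qv p u a + 2 * r * u a ^ 2 + 8 * r ^ 2 * u a + 6 * r ^ 3 := by
    intro a; ring
  simp only [h2, Finset.sum_add_distrib, ← Finset.mul_sum, T.cubic, T.sum_qv, T.sm,
    Finset.sum_const, Finset.card_univ, nsmul_eq_mul]
  ring

end Pool.Agent.U486.EW
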