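import Pool.Agent.U486.EW.Abs

/-!
# The numerical part
-/

set_option autoImplicit false

namespace Pool.Agent.U486.EW

open Finset

variable {K : Type*} [Fintype K] [DecidableEq K]

/-- the wedge numbers together with the bracket numbers -/
structure Tri2 (p : K → K → K → ℝ) (P : K → K → ℝ) (u : K → ℝ) (C : K → K → ℝ) : Prop
    extends Tri p P u where
  sc : ∀ a, sv p u a ≤ 2 * ∑ b, C a b * u b ^ 2 - u a ^ 2
  cap : ∀ a b, a ≠ b → C a b + 2 * P a b ≤ 2
  dc : ∀ a, C a a = 0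

variable {p : K → K → K → ℝ} {P : K → K → ℝ} {u : K → ℝ} {C : K → K → ℝ}

theorem Tri2.neg (T : Tri2 p P u C) : Tri2 p P (fun a => - u a) C where
  toTri := T.toTri.neg
  sc a := by
    rw [sv_neg]
    have := T.sc a
    simp only [neg_sq]
    exact this
  cap := T.cap
  dc := T.dc

/-- upper bound of the second moments -/
theorem Tri2.rv_le (T : Tri2 p P u C) (a : K) :
    rv P u a ≤ ∑ b, u b ^ 2 + u a ^ 2 / 12 - sv p u a / 4 := by
  have h2 := T.sc a
  have h3 : ∑ b, P a b * u b ^ 2 + 1 / 2 * ∑ b, C a b * u b ^ 2 ≤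
      ∑ b, (u b ^ 2 + if b = a then 1 / 3 * u a ^ 2 else 0) := by
    rw [Finset.mul_sum, ← Finset.sum_add_distrib]
    refine Finset.sum_le_sum fun b _ => ?_
    by_cases h : b = a
    · subst h
      rw [if_pos rfl, T.dc]
      have := mul_le_mul_of_nonneg_right (T.dg b) (sq_nonneg (u b))
      linarith
    · rw [if_neg h]
      have := mul_le_mul_of_nonneg_right (T.cap a b (Ne.symm h)) (sq_nonneg (u b))
      linarith
  rw [Finset.sum_add_distrib, Finset.sum_ite_eq', if_pos (Finset.mem_univ a)] at h3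
  unfold rv
  linarith

/-- the first moment of the second moments -/
theorem Tri.sum_u_rv (T : Tri p P u) : ∑ a, u a * rv P u a = ∑ a, u a ^ 3 := by
  unfold rv
  simp only [Finset.mul_sum]
  rw [Finset.sum_comm]
  refine Finset.sum_congr rfl fun b _ => ?_
  have e2 : ∀ a, u a * (P a b * u b ^ 2) = (P b a * u a) * u b ^ 2 := by
    intro a
    rw [T.symm a b]; ring
  simp only [e2]
  rw [← Finset.sum_mul, T.ev]
  ring

theorem Tri.sum_rv' (T : Tri p P u) : ∑ a, rv P u a = 6 * ∑ a, u a ^ 2 :=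
  T.sum_rv fun b => u b ^ 2

/-- a bound for numbers with sum zero -/
theorem single_le (hK : Fintype.card K = 15) (h0 : ∑ a, u a = 0) (a : K) :
    15 * u a ^ 2 ≤ 14 * ∑ b, u b ^ 2 := by
  have h1 : u a = -∑ b ∈ univ.erase a, u b := by
    have := Finset.add_sum_erase univ u (Finset.mem_univ a)
    linarith
  have h2 : (∑ b ∈ univ.erase a, u b) ^ 2 ≤ 14 * ∑ b ∈ univ.erase a, u b ^ 2 := by
    have h3 := sq_sum_le_card_mul_sum_sq (s := univ.erase a) (f := u)
    rw [Finset.card_erase_of_mem (Finset.mem_univ a), Finset.card_univ, hK] at h3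
    simpa using h3
  have h4 := Finset.add_sum_erase univ (fun b => u b ^ 2) (Finset.mem_univ a)
  have h5 : u a ^ 2 = (∑ b ∈ univ.erase a, u b) ^ 2 := by
    rw [h1, neg_sq]
  linarith

/-- the scalar inequality -/
theorem scalar {x s r : ℝ} (h1 : -(97 / 100) ≤ x) (h2 : x ≤ 97 / 100) (hs : 0 ≤ s)
    (hr : s / 2 + x ^ 2 / 6 ≤ r) (hr' : r ≤ 1 + x ^ 2 / 12 - s / 4) :
    x * s - x ^ 3 ≤ 9 / 10000 + 6 / 100 * x + 1035 / 1000 * x ^ 2 + 138 / 1000 * s +
      425 / 10000 * r + 32 / 100 * (x * r - x ^ 3) := by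
  -- the values at the corners
  have v1 : 0 ≤ 9 / 10000 + 6 / 100 * x + 1035 / 1000 * x ^ 2 + 68 / 100 * x ^ 3 +
      (425 / 10000 + 32 / 100 * x) * (x ^ 2 / 6) := by
    nlinarith [mul_nonneg (sq_nonneg (x + 288 / 10000)) (by linarith : (0 : ℝ) ≤ x + 97 / 100),
      sq_nonneg (x + 288 / 10000), sq_nonneg x]
  have v2 : 0 ≤ 9 / 10000 + 6 / 100 * x + 1035 / 1000 * x ^ 2 + 68 / 100 * x ^ 3 +
      (425 / 10000 + 32 / 100 * x) * (1 + x ^ 2 / 12) := by
    nlinarith [mul_nonneg (sq_nonneg (x + 245 / 1000)) (by linarith : (0 : ℝ) ≤ x + 97 / 100),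
      sq_nonneg (x + 245 / 1000)]
  have v3 : 0 ≤ 9 / 10000 + 6 / 100 * x + 1035 / 1000 * x ^ 2 + 68 / 100 * x ^ 3 +
      (138 / 1000 - x) * (4 / 3 - x ^ 2 / 9) +
      (425 / 10000 + 32 / 100 * x) * (2 / 3 + x ^ 2 / 9) := by
    nlinarith [mul_nonneg (sq_nonneg (x - 359 / 1000)) (by linarith : (0 : ℝ) ≤ x + 97 / 100),
      sq_nonneg (x - 359 / 1000)]
  have hD : 0 < 1 - x ^ 2 / 12 := by nlinarith
  have w1 : 0 ≤ 1 + x ^ 2 / 12 - s / 4 - r := by linarith
  have w2 : 0 ≤ r - s / 2 - x ^ 2 / 6 := by linarith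
  have w3 : 0 ≤ 3 / 4 * s := by linarith
  have key := add_nonneg (add_nonneg (mul_nonneg v1 w1) (mul_nonneg v2 w2)) (mul_nonneg v3 w3)
  have e : (9 / 10000 + 6 / 100 * x + 1035 / 1000 * x ^ 2 + 68 / 100 * x ^ 3 +
      (425 / 10000 + 32 / 100 * x) * (x ^ 2 / 6)) * (1 + x ^ 2 / 12 - s / 4 - r) +
      (9 / 10000 + 6 / 100 * x + 1035 / 1000 * x ^ 2 + 68 / 100 * x ^ 3 +
      (425 / 10000 + 32 / 100 * x) * (1 + x ^ 2 / 12)) * (r - s / 2 - x ^ 2 / 6) +
      (9 / 10000 + 6 / 100 * x + 1035 / 1000 * x ^ 2 + 68 / 100 * x ^ 3 +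
      (138 / 1000 - x) * (4 / 3 - x ^ 2 / 9) +
      (425 / 10000 + 32 / 100 * x) * (2 / 3 + x ^ 2 / 9)) * (3 / 4 * s) =
      (1 - x ^ 2 / 12) * (9 / 10000 + 6 / 100 * x + 1035 / 1000 * x ^ 2 + 68 / 100 * x ^ 3 +
        (138 / 1000 - x) * s + (425 / 10000 + 32 / 100 * x) * r) := by ring
  rw [e] at key
  have := nonneg_of_mul_nonneg_right key hD
  linarith

/-- **the cubic bound** -/
theorem Tri2.cubic_le (T : Tri2 p P u C) (hK : Fintype.card K = 15) :
    ∑ a, u a * sv p u a - ∑ a, u a ^ 3 ≤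
      2 * ((∑ a, u a ^ 2) * Real.sqrt (∑ a, u a ^ 2)) := by
  set Q := ∑ a, u a ^ 2 with hQ
  have hQ0 : 0 ≤ Q := Finset.sum_nonneg fun a _ => sq_nonneg _
  set t := Real.sqrt Q with ht
  have htt : t * t = Q := Real.mul_self_sqrt hQ0
  rcases eq_or_lt_of_le (Real.sqrt_nonneg Q) with h0 | hpos
  · -- all eigenvalues vanish
    have hQz : Q = 0 := by
      rw [← htt, ht, ← h0]; ring
    have hu : ∀ a, u a = 0 := by
      intro a
      have h1 := (Finset.sum_eq_zero_iff_of_nonneg fun a _ => sq_nonneg (u a)).mp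
        (hQ ▸ hQz : ∑ a, u a ^ 2 = 0) a (Finset.mem_univ a)
      exact pow_eq_zero_iff (two_ne_zero) |>.mp h1
    rw [hQz]
    simp [hu]
  · have hb : ∀ a, u a * sv p u a - u a ^ 3 ≤ 9 / 10000 * t ^ 3 + 6 / 100 * (t ^ 2 * u a) +
        1035 / 1000 * (t * u a ^ 2) + 138 / 1000 * (t * sv p u a) +
        425 / 10000 * (t * rv P u a) + 32 / 100 * (u a * rv P u a - u a ^ 3) := by
      intro a
      have s0 := T.toTri.sv_nonneg a
      have s1 := T.rv_le a
      have s2 := T.toTri.sv_le_rv a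
      rw [← hQ, ← htt] at s1
      have b1 := single_le hK T.sm a
      rw [← hQ, ← htt] at b1
      set x := u a / t with hx
      set s := sv p u a / t ^ 2 with hs
      set r := rv P u a / t ^ 2 with hr
      have hne : t ≠ 0 := hpos.ne'
      have ex : u a = x * t := by rw [hx, div_mul_cancel₀ _ hne]
      have es : sv p u a = s * t ^ 2 := by rw [hs, div_mul_cancel₀ _ (pow_ne_zero 2 hne)]
      have er : rv P u a = r * t ^ 2 := by rw [hr, div_mul_cancel₀ _ (pow_ne_zero 2 hne)]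
      have ht2 : 0 < t ^ 2 := by positivity
      have hx2 : x ^ 2 ≤ 14 / 15 := by
        rw [ex] at b1
        have h3 : t ^ 2 * (15 * x ^ 2) ≤ t ^ 2 * 14 := by linarith
        have := le_of_mul_le_mul_left h3 ht2
        linarith
      have hs0 : 0 ≤ s := by rw [hs]; positivity
      have hr1 : r ≤ 1 + x ^ 2 / 12 - s / 4 := by
        rw [ex, es, er] at s1
        have h3 : t ^ 2 * r ≤ t ^ 2 * (1 + x ^ 2 / 12 - s / 4) := by linarith
        exact le_of_mul_le_mul_left h3 ht2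
      have hr2 : s / 2 + x ^ 2 / 6 ≤ r := by
        rw [ex, es, er] at s2
        have h3 : t ^ 2 * (s / 2 + x ^ 2 / 6) ≤ t ^ 2 * r := by linarith
        exact le_of_mul_le_mul_left h3 ht2
      have h1 : -(97 / 100) ≤ x := by nlinarith
      have h2 : x ≤ 97 / 100 := by nlinarith
      have key := scalar h1 h2 hs0 hr2 hr1
      have h3 : 0 < t ^ 3 := by positivity
      have h4 := mul_le_mul_of_nonneg_left key h3.le
      rw [ex, es, er]
      linarith [h4]
    have h1 := Finset.sum_le_sum fun a (_ : a ∈ univ) => hb a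
    simp only [Finset.sum_sub_distrib, Finset.sum_add_distrib, ← Finset.mul_sum, T.sum_sv, T.sm,
      T.sum_rv', T.sum_u_rv, Finset.sum_const, Finset.card_univ, hK, nsmul_eq_mul] at h1
    rw [← hQ] at h1
    have e1 : Q * t = t ^ 3 := by rw [← htt]; ring
    rw [e1]
    have e2 : t * Q = t ^ 3 := by rw [← htt]; ring
    have e3 : t * (5 * Q) = 5 * t ^ 3 := by rw [← htt]; ring
    have e4 : t * (6 * Q) = 6 * t ^ 3 := by rw [← htt]; ring
    rw [e2, e3, e4] at h1
    push_cast at h1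
    have h5 : 0 < t ^ 3 := by positivity
    linarith

/-- both signs -/
theorem Tri2.cubic_abs (T : Tri2 p P u C) (hK : Fintype.card K = 15) :
    |∑ a, u a ^ 3 - ∑ a, u a * sv p u a| ≤
      2 * ((∑ a, u a ^ 2) * Real.sqrt (∑ a, u a ^ 2)) := by
  rw [abs_le]
  constructor
  · have := T.cubic_le hK
    linarith
  · have h1 := T.neg.cubic_le hK
    simp only [sv_neg, neg_sq] at h1
    have e1 : ∑ a, -u a * sv p u a = -∑ a, u a * sv p u a := by
      rw [← Finset.sum_neg_distrib]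
      exact Finset.sum_congr rfl fun a _ => by ring
    have e2 : ∑ a, (-u a) ^ 3 = -∑ a, u a ^ 3 := by
      rw [← Finset.sum_neg_distrib]
      exact Finset.sum_congr rfl fun a _ => by ring
    rw [e1, e2] at h1
    linarith

/-- the two-sided bound -/
theorem Tri.two_sided (T : Tri p P u) (hK : Fintype.card K = 15) {m M κ : ℝ}
    (h1 : ∀ a, -M ≤ u a) (h2 : ∀ a, u a ≤ m) :
    90 * κ ^ 3 - 15 * m * M ^ 2 + (3 * κ - 3 * M - m) * (∑ a, u a ^ 2) ≤
      90 * κ ^ 3 + 3 * κ * (∑ a, u a ^ 2) - ∑ a, u a ^ 3 + ∑ a, u a * sv p u a := by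
  have a1 : -M * (5 * ∑ a, u a ^ 2) ≤ ∑ a, u a * sv p u a := by
    rw [← T.sum_sv, Finset.mul_sum]
    exact Finset.sum_le_sum fun a _ => mul_le_mul_of_nonneg_right (h1 a) (T.sv_nonneg a)
  have a2 : (2 * M - m) * (∑ a, u a ^ 2) - 15 * m * M ^ 2 ≤ -∑ a, u a ^ 3 := by
    have e1 : ∀ a, 0 ≤ (m - u a) * (u a + M) ^ 2 := fun a =>
      mul_nonneg (by linarith [h2 a]) (sq_nonneg _)
    have e2 := Finset.sum_nonneg fun a (_ : a ∈ univ) => e1 a
    have e3 : ∀ a, (m - u a) * (u a + M) ^ 2 = (m - 2 * M) * u a ^ 2 + (2 * m * M - M ^ 2) * u a +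
        m * M ^ 2 - u a ^ 3 := by intro a; ring
    simp only [e3, Finset.sum_sub_distrib, Finset.sum_add_distrib, ← Finset.mul_sum, T.sm,
      Finset.sum_const, Finset.card_univ, hK, nsmul_eq_mul] at e2
    push_cast at e2
    linarith
  linarith

theorem Tri.norm_le (T : Tri p P u) (hK : Fintype.card K = 15) {m M : ℝ}
    (h1 : ∀ a, -M ≤ u a) (h2 : ∀ a, u a ≤ m) : ∑ a, u a ^ 2 ≤ 15 * (m * M) := by
  have e1 : ∀ a, 0 ≤ (m - u a) * (u a + M) := fun a =>
    mul_nonneg (by linarith [h2 a]) (by linarith [h1 a])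
  have e2 := Finset.sum_nonneg fun a (_ : a ∈ univ) => e1 a
  have e3 : ∀ a, (m - u a) * (u a + M) = m * M + (m - M) * u a - u a ^ 2 := by intro a; ring
  simp only [e3, Finset.sum_sub_distrib, Finset.sum_add_distrib, ← Finset.mul_sum, T.sm,
    Finset.sum_const, Finset.card_univ, hK, nsmul_eq_mul] at e2
  push_cast at e2
  linarith

end Pool.Agent.U486.EW
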