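import Pool.Agent.U486.EW.Id
import Pool.Agent.U486.EW.Num

/-!
# The bracket numbers
-/

set_option autoImplicit false

namespace Pool.Agent.U486.EW

open Finset Pool.Agent.TH594.HP Pool.Agent.TH594.HE

variable {J : Type*} [Fintype J] [DecidableEq J]
variable {h : Pr J → Matrix J J ℝ} {lam : Pr J → ℝ} {ρ : ℝ}

theorem parseval (F : Fam h lam ρ) (hc : Comp h) (hN : Fintype.card J = 6) {X : Matrix J J ℝ}
    (hX : Sk X) : ∑ b, sp (h b) X ^ 2 = sp X X := by
  have h1 := Ls_two F.eh hN hX
  have e2 : Dg 2 (LM X (vac : Fk J)) := Dg_LM Dg_vac _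
  have h2 := Ls_unit hc e2
  rw [hN, nn_two hX] at h2
  rw [h2, hN] at h1
  push_cast at h1
  linarith

theorem CC_symm (F : Fam h lam ρ) (a b : Pr J) : CC h a b = CC h b a := by
  unfold CC
  exact sp_br_swap _ _

theorem CC_cap (F : Fam h lam ρ) (a b : Pr J) (hab : a ≠ b) :
    CC h b a + 2 * PP h a b ≤ 2 := by
  rw [CC_symm F b a, PP_eq F, if_neg hab]
  set A := h a with hA
  set B := h b with hB
  have sA : Sk A := F.eh.sk a
  have sB : Sk B := F.eh.sk b
  have h2 : CC h a b = Matrix.trace (A * A * B * B) - Matrix.trace (A * B * A * B) := by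
    unfold CC
    rw [sp_tr (br_sk sA sB)]
    unfold br
    have e1 : (A * B - B * A) * (A * B - B * A) =
        A * B * A * B - A * (B * B * A) - B * A * A * B + B * A * B * A := by
      noncomm_ring
    rw [e1, Matrix.trace_add, Matrix.trace_sub, Matrix.trace_sub]
    have t2 : Matrix.trace (A * (B * B * A)) = Matrix.trace (A * A * B * B) := by
      rw [Matrix.trace_mul_comm, Matrix.mul_assoc, Matrix.trace_mul_comm]
      simp only [Matrix.mul_assoc]
    have t3 : Matrix.trace (B * A * A * B) = Matrix.trace (A * A * B * B) := by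
      rw [Matrix.mul_assoc, Matrix.mul_assoc, Matrix.trace_mul_comm]
      simp only [Matrix.mul_assoc]
    have t4 : Matrix.trace (B * A * B * A) = Matrix.trace (A * B * A * B) := by
      rw [Matrix.trace_mul_comm]
      simp only [Matrix.mul_assoc]
    rw [t2, t3, t4]; ring
  have h3 : 0 ≤ Matrix.trace ((A * B + B * A) * (A * B + B * A)) := by
    unfold Matrix.trace
    refine Finset.sum_nonneg fun k _ => ?_
    rw [Matrix.diag_apply, Matrix.mul_apply]
    refine Finset.sum_nonneg fun l _ => ?_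
    have : (A * B + B * A) l k = (A * B + B * A) k l := by
      simp only [Matrix.add_apply, Matrix.mul_apply]
      have s1 : ∑ r, A l r * B r k = ∑ r, B k r * A r l :=
        Finset.sum_congr rfl fun r _ => by rw [sA r l, sB k r]; ring
      have s2 : ∑ r, B l r * A r k = ∑ r, A k r * B r l :=
        Finset.sum_congr rfl fun r _ => by rw [sB r l, sA k r]; ring
      rw [s1, s2]; ring
    rw [this]
    exact mul_self_nonneg _
  have h4 : Matrix.trace ((A * B + B * A) * (A * B + B * A)) =
      2 * Matrix.trace (A * A * B * B) + 2 * Matrix.trace (A * B * A * B) := by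
    have e1 : (A * B + B * A) * (A * B + B * A) =
        A * B * A * B + A * (B * B * A) + B * A * A * B + B * A * B * A := by
      noncomm_ring
    rw [e1, Matrix.trace_add, Matrix.trace_add, Matrix.trace_add]
    have t2 : Matrix.trace (A * (B * B * A)) = Matrix.trace (A * A * B * B) := by
      rw [Matrix.trace_mul_comm, Matrix.mul_assoc, Matrix.trace_mul_comm]
      simp only [Matrix.mul_assoc]
    have t3 : Matrix.trace (B * A * A * B) = Matrix.trace (A * A * B * B) := by
      rw [Matrix.mul_assoc, Matrix.mul_assoc, Matrix.trace_mul_comm]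
      simp only [Matrix.mul_assoc]
    have t4 : Matrix.trace (B * A * B * A) = Matrix.trace (A * B * A * B) := by
      rw [Matrix.trace_mul_comm]
      simp only [Matrix.mul_assoc]
    rw [t2, t3, t4]; ring
  rw [h4] at h3
  rw [h2]
  linarith

theorem G_le (F : Fam h lam ρ) (hc : Comp h) (hN : Fintype.card J = 6) (a : Pr J) :
    ∑ c, ∑ b, (lam c * lam b) * sp (h b) (br (h c) (h a)) ^ 2 ≤ ∑ c, lam c ^ 2 * CC h c a := by
  have hP : ∀ c, ∑ b, sp (h b) (br (h c) (h a)) ^ 2 = CC h c a := fun c =>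
    parseval F hc hN (br_sk (F.eh.sk c) (F.eh.sk a))
  have hs : ∀ b c, sp (h b) (br (h c) (h a)) ^ 2 = sp (h c) (br (h b) (h a)) ^ 2 := by
    intro b c
    rw [sp_br_left (F.eh.sk b) (F.eh.sk a) (h c), sp_br_left (F.eh.sk c) (F.eh.sk a) (h b)]
    have : br (h b) (h c) = - br (h c) (h b) := br_swap _ _
    rw [this]
    have e : sp (h a) (-br (h c) (h b)) = - sp (h a) (br (h c) (h b)) := by
      have := sp_smul (-1) (h a) (br (h c) (h b))
      rw [neg_one_smul] at this
      rw [this]; ring
    rw [e]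
    ring
  have h1 : ∑ c, ∑ b, (lam c * lam b) * sp (h b) (br (h c) (h a)) ^ 2 ≤
      ∑ c, ∑ b, (lam c ^ 2 / 2 * sp (h b) (br (h c) (h a)) ^ 2 +
        lam b ^ 2 / 2 * sp (h b) (br (h c) (h a)) ^ 2) := by
    refine Finset.sum_le_sum fun c _ => Finset.sum_le_sum fun b _ => ?_
    have e1 : lam c * lam b ≤ lam c ^ 2 / 2 + lam b ^ 2 / 2 := by
      nlinarith [sq_nonneg (lam c - lam b)]
    have := mul_le_mul_of_nonneg_right e1 (sq_nonneg (sp (h b) (br (h c) (h a))))
    linarith
  refine h1.trans (le_of_eq ?_)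
  simp only [Finset.sum_add_distrib]
  have h2 : ∑ c, ∑ b, lam c ^ 2 / 2 * sp (h b) (br (h c) (h a)) ^ 2 =
      1 / 2 * ∑ c, lam c ^ 2 * CC h c a := by
    rw [Finset.mul_sum]
    refine Finset.sum_congr rfl fun c _ => ?_
    rw [← Finset.mul_sum, hP]; ring
  have h3 : ∑ c, ∑ b, lam b ^ 2 / 2 * sp (h b) (br (h c) (h a)) ^ 2 =
      1 / 2 * ∑ c, lam c ^ 2 * CC h c a := by
    rw [Finset.sum_comm, ← h2]
    refine Finset.sum_congr rfl fun b _ => Finset.sum_congr rfl fun c _ => ?_
    rw [hs]
  rw [h2, h3]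
  ring

/-- **the wedge and the bracket numbers of an eigenfamily** -/
theorem tri2 (F : Fam h lam ρ) (hc : Comp h) (hN : Fintype.card J = 6) :
    Tri2 (pp h) (PP h) (fun a => lam a - ρ / 5) (fun a b => CC h b a) where
  toTri := tri F hc hN
  sc a := by
    have T := tri F hc hN
    have h1 := bracket F hN a
    have h2 := G_le F hc hN a
    have h3 := T.sv_eq' lam a
    have h4 := F.CCsum a
    have h5 := F.CClam a
    rw [hN] at h4
    rw [sv_shift, h3]
    unfold rv qv
    have e1 : ∑ b, PP h a b * lam b ^ 2 = ∑ b, lam b ^ 2 * PP h a b :=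
      Finset.sum_congr rfl fun b _ => mul_comm _ _
    have e2 : ∑ b, CC h b a * (lam b - ρ / 5) ^ 2 = ∑ b, lam b ^ 2 * CC h b a -
        2 * ρ / 5 * (∑ b, lam b * CC h a b) + ρ ^ 2 / 25 * ∑ b, CC h a b := by
      rw [Finset.mul_sum, Finset.mul_sum, ← Finset.sum_sub_distrib, ← Finset.sum_add_distrib]
      refine Finset.sum_congr rfl fun b _ => ?_
      rw [CC_symm F a b]; ring
    rw [e1, h1, e2, ← h5, h4]
    push_cast
    nlinarith [h2]
  cap a b hab := CC_cap F a b hab
  dc a := CC_self h a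

end Pool.Agent.U486.EW
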