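import Pool.Agent.U486.EW.Fin

/-!
# The product of two three-dimensional space forms
-/

set_option autoImplicit false

namespace Pool.Agent.U486.EW

open Finset Pool.Agent.TH594.HP Pool.Agent.TH594.HE
open Pool.Agent.W666.GB (AlgCurv gbc scal roundGB unitCurv CurvField)
open Pool.Agent.W669.HD (T4 gm cp negT addT unitT OpNonneg BiForm gbc_eq cp_unit unit_bi unit_curv
  add_curv sq_real)

variable {V : Type} [NormedAddCommGroup V] [InnerProductSpace ℝ V]

/-- the scalar product of the projections to a factor -/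
noncomputable def gg (e : OrthonormalBasis (Fin 3 × Bool) ℝ V) (b : Bool) (x y : V) : ℝ :=
  ∑ i : Fin 3, inner ℝ (e (i, b)) x * inner ℝ (e (i, b)) y

/-- the curvature tensor of the product of two space forms of curvature `k` -/
noncomputable def prodT (e : OrthonormalBasis (Fin 3 × Bool) ℝ V) (k : ℝ) (x y z w : V) : ℝ :=
  k * ∑ b : Bool, (gg e b x z * gg e b y w - gg e b x w * gg e b y z)

theorem gg_comm (e : OrthonormalBasis (Fin 3 × Bool) ℝ V) (b : Bool) (x y : V) :
    gg e b x y = gg e b y x := by
  unfold gg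
  exact Finset.sum_congr rfl fun i _ => mul_comm _ _

theorem gg_add (e : OrthonormalBasis (Fin 3 × Bool) ℝ V) (b : Bool) (x x' y : V) :
    gg e b (x + x') y = gg e b x y + gg e b x' y := by
  unfold gg
  rw [← Finset.sum_add_distrib]
  refine Finset.sum_congr rfl fun i _ => ?_
  rw [inner_add_right]; ring

theorem gg_smul (e : OrthonormalBasis (Fin 3 × Bool) ℝ V) (b : Bool) (t : ℝ) (x y : V) :
    gg e b (t • x) y = t * gg e b x y := by
  unfold gg
  rw [Finset.mul_sum]
  refine Finset.sum_congr rfl fun i _ => ?_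
  rw [real_inner_smul_right]; ring

theorem gg_basis (e : OrthonormalBasis (Fin 3 × Bool) ℝ V) (b : Bool) (p : Fin 3 × Bool) (y : V) :
    gg e b (e p) y = if p.2 = b then inner ℝ (e p) y else 0 := by
  unfold gg
  have h1 : ∀ i : Fin 3, inner ℝ (e (i, b)) (e p) * inner ℝ (e (i, b)) y =
      if i = p.1 then (if p.2 = b then inner ℝ (e p) y else 0) else 0 := by
    intro i
    rw [inner_basis]
    by_cases h : (i, b) = p
    · rw [if_pos h, ← h]
      simp
    · rw [if_neg h]
      by_cases h2 : i = p.1
      · rw [if_pos h2]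
        have h3 : ¬ p.2 = b := fun h4 => h (by rw [h2, ← h4])
        rw [if_neg h3]; ring
      · rw [if_neg h2]; ring
  simp only [h1, Finset.sum_ite_eq', Finset.mem_univ, if_true]

theorem prodT_curv (e : OrthonormalBasis (Fin 3 × Bool) ℝ V) (k : ℝ) : AlgCurv (prodT e k) where
  add x x' y z w := by
    unfold prodT
    rw [← mul_add, ← Finset.sum_add_distrib]
    congr 1
    refine Finset.sum_congr rfl fun b _ => ?_
    rw [gg_add, gg_add]; ring
  smul t x y z w := by
    unfold prodT
    have h : ∑ b : Bool, (gg e b (t • x) z * gg e b y w - gg e b (t • x) w * gg e b y z) =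
        t * ∑ b : Bool, (gg e b x z * gg e b y w - gg e b x w * gg e b y z) := by
      rw [Finset.mul_sum]
      refine Finset.sum_congr rfl fun b _ => ?_
      rw [gg_smul, gg_smul]; ring
    rw [h]; ring
  anti x y z w := by
    unfold prodT
    have h : ∑ b : Bool, (gg e b y z * gg e b x w - gg e b y w * gg e b x z) =
        -∑ b : Bool, (gg e b x z * gg e b y w - gg e b x w * gg e b y z) := by
      rw [← Finset.sum_neg_distrib]
      refine Finset.sum_congr rfl fun b _ => ?_
      ring
    rw [h]; ring
  pair x y z w := by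
    unfold prodT
    congr 1
    refine Finset.sum_congr rfl fun b _ => ?_
    rw [gg_comm e b z x, gg_comm e b w y, gg_comm e b z y, gg_comm e b w x]
    ring
  bianchi x y z w := by
    unfold prodT
    rw [← mul_add, ← mul_add, ← Finset.sum_add_distrib, ← Finset.sum_add_distrib]
    have : ∀ b : Bool, gg e b x z * gg e b y w - gg e b x w * gg e b y z +
        (gg e b y x * gg e b z w - gg e b y w * gg e b z x) +
        (gg e b z y * gg e b x w - gg e b z w * gg e b x y) = 0 := by
      intro b
      rw [gg_comm e b z x, gg_comm e b y x, gg_comm e b z y]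
      ring
    simp only [this, Finset.sum_const_zero, mul_zero]

theorem prodT_basis (e : OrthonormalBasis (Fin 3 × Bool) ℝ V) (k : ℝ) (p q r s : Fin 3 × Bool) :
    prodT e k (e p) (e q) (e r) (e s) = (if p.2 = q.2 then k else 0) * unitCurv p q r s := by
  unfold prodT
  have h1 : ∀ b : Bool, gg e b (e p) (e r) * gg e b (e q) (e s) -
      gg e b (e p) (e s) * gg e b (e q) (e r) =
      if b = p.2 then (if p.2 = q.2 then unitCurv p q r s else 0) else 0 := by
    intro b
    rw [gg_basis, gg_basis, gg_basis, gg_basis, inner_basis, inner_basis, inner_basis, inner_basis]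
    unfold unitCurv
    by_cases h1 : b = p.2
    · subst h1
      by_cases h2 : p.2 = q.2
      · simp [h2]
      · have h3 : ¬ q.2 = p.2 := fun h => h2 h.symm
        simp [h2, h3]
    · have h3 : ¬ p.2 = b := fun h => h1 h.symm
      simp [h1, h3]
  simp only [h1, Finset.sum_ite_eq', Finset.mem_univ, if_true]
  split_ifs <;> ring

theorem prodT_Einstein (e : OrthonormalBasis (Fin 3 × Bool) ℝ V) (κ : ℝ) :
    Einstein e (prodT e (5 / 2 * κ)) κ := by
  intro y w
  have hi : ∀ x y : V, inner ℝ x y = ∑ b : Bool, gg e b x y := by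
    intro x y
    unfold gg
    rw [← e.sum_inner_mul_inner x y, Fintype.sum_prod_type, Finset.sum_comm]
    refine Finset.sum_congr rfl fun b _ => Finset.sum_congr rfl fun i _ => ?_
    rw [real_inner_comm x]
  have h1 : ∀ p : Fin 3 × Bool, prodT e (5 / 2 * κ) (e p) y (e p) w =
      5 / 2 * κ * (gg e p.2 y w - inner ℝ (e p) w * inner ℝ (e p) y) := by
    intro p
    unfold prodT
    congr 1
    have h2 : ∀ b : Bool, gg e b (e p) (e p) * gg e b y w - gg e b (e p) w * gg e b y (e p) =
        if b = p.2 then (gg e p.2 y w - inner ℝ (e p) w * inner ℝ (e p) y) else 0 := by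
      intro b
      rw [gg_comm e b y (e p), gg_basis, gg_basis, gg_basis, inner_basis, if_pos rfl]
      by_cases h : b = p.2
      · subst h
        simp
      · have h3 : ¬ p.2 = b := fun h' => h h'.symm
        simp [h, h3]
    simp only [h2, Finset.sum_ite_eq', Finset.mem_univ, if_true]
  simp only [h1]
  rw [← Finset.mul_sum, Finset.sum_sub_distrib]
  have h3 : ∑ p : Fin 3 × Bool, gg e p.2 y w = 3 * inner ℝ y w := by
    rw [Fintype.sum_prod_type, hi y w]
    simp only [Finset.sum_const, Finset.card_univ, Fintype.card_fin, nsmul_eq_mul]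
    norm_num
  have h4 : ∑ p : Fin 3 × Bool, inner ℝ (e p) w * inner ℝ (e p) y = inner ℝ y w := by
    rw [← e.sum_inner_mul_inner y w]
    refine Finset.sum_congr rfl fun p _ => ?_
    rw [real_inner_comm y]; ring
  rw [h3, h4]
  push_cast
  ring

theorem parity (σ : Equiv.Perm (Fin 3 × Bool)) : ∃ b, (σ (b, false)).2 ≠ (σ (b, true)).2 := by
  by_contra hcon
  push Not at hcon
  have h1 : ∑ x : Fin 3 × Bool, (if (σ x).2 = true then 1 else 0) =
      ∑ x : Fin 3 × Bool, (if x.2 = true then 1 else 0) :=
    Equiv.sum_comp σ (fun x => if x.2 = true then 1 else 0)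
  have h2 : ∑ x : Fin 3 × Bool, (if x.2 = true then 1 else 0) = 3 := by decide
  have h3 : ∑ x : Fin 3 × Bool, (if (σ x).2 = true then 1 else 0) =
      2 * ∑ b : Fin 3, (if (σ (b, true)).2 = true then 1 else 0) := by
    rw [Fintype.sum_prod_type, Finset.mul_sum]
    refine Finset.sum_congr rfl fun b _ => ?_
    rw [Fintype.sum_bool, hcon b]
    ring
  omega

theorem prodT_gbc (e : OrthonormalBasis (Fin 3 × Bool) ℝ V) (k : ℝ) : gbc e (prodT e k) = 0 := by
  unfold gbc
  have : ∀ σ τ : Equiv.Perm (Fin 3 × Bool), ((Equiv.Perm.sign σ : ℤ) : ℝ) *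
      ((Equiv.Perm.sign τ : ℤ) : ℝ) * ∏ b : Fin 3, prodT e k (e (σ (b, false))) (e (σ (b, true)))
        (e (τ (b, false))) (e (τ (b, true))) = 0 := by
    intro σ τ
    obtain ⟨b, hb⟩ := parity σ
    rw [Finset.prod_eq_zero (Finset.mem_univ b), mul_zero]
    rw [prodT_basis, if_neg hb, zero_mul]
  simp only [this, Finset.sum_const_zero, mul_zero]

theorem prodT_wsq (e : OrthonormalBasis (Fin 3 × Bool) ℝ V) (κ : ℝ) :
    wsq e (prodT e (5 / 2 * κ)) κ = 45 / 2 * κ ^ 2 := by
  unfold wsq
  have h1 : ∀ p q r s, (prodT e (5 / 2 * κ) (e p) (e q) (e r) (e s) - κ * unitCurv p q r s) ^ 2 =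
      ((if p.2 = q.2 then 3 / 2 * κ else -κ)) ^ 2 * unitCurv p q r s ^ 2 := by
    intro p q r s
    rw [prodT_basis]
    split_ifs <;> ring
  simp only [h1]
  have h2 : ∀ p q : Fin 3 × Bool, ∑ r, ∑ s, unitCurv p q r s ^ 2 = if p = q then 0 else (2 : ℝ) := by
    intro p q
    unfold unitCurv
    by_cases hpq : p = q
    · subst hpq
      rw [if_pos rfl]
      refine Finset.sum_eq_zero fun r _ => Finset.sum_eq_zero fun s _ => ?_
      ring
    · rw [if_neg hpq]
      have e1 : ∀ r s : Fin 3 × Bool, ((if p = r then (1 : ℝ) else 0) * (if q = s then 1 else 0) -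
          (if p = s then 1 else 0) * (if q = r then 1 else 0)) ^ 2 =
          (if p = r then (if q = s then 1 else 0) else 0) +
            (if q = r then (if p = s then 1 else 0) else 0) := by
        intro r s
        by_cases a1 : p = r
        · subst a1
          have : ¬ q = p := fun h => hpq h.symm
          simp [this]
        · by_cases a2 : q = r
          · subst a2
            simp [a1]
          · simp [a1, a2]
      simp only [e1, Finset.sum_add_distrib]
      simp
      norm_num
  have h3 : ∀ p q : Fin 3 × Bool, ∑ r, ∑ s, ((if p.2 = q.2 then 3 / 2 * κ else -κ)) ^ 2 *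
      unitCurv p q r s ^ 2 = κ ^ 2 * (if p = q then 0 else if p.2 = q.2 then 9 / 2 else 2) := by
    intro p q
    simp only [← Finset.mul_sum]
    rw [h2]
    split_ifs <;> ring
  simp only [h3]
  simp only [← Finset.mul_sum]
  have h4 : ∑ p : Fin 3 × Bool, ∑ q : Fin 3 × Bool,
      (if p = q then (0 : ℝ) else if p.2 = q.2 then 9 / 2 else 2) = 90 := by
    simp only [Fintype.sum_prod_type, Fin.sum_univ_three, Fintype.sum_bool]
    simp
    norm_num
  rw [h4]
  ring

end Pool.Agent.U486.EW
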