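import Pool.Agent.U486.EW.Pt
import Pool.Agent.TH594.HP.Field

/-!
# The pointwise theorems
-/

set_option autoImplicit false

namespace Pool.Agent.U486.EW

open Finset Pool.Agent.TH594.HP Pool.Agent.TH594.HE MeasureTheory
open Pool.Agent.W666.GB (AlgCurv gbc scal roundGB unitCurv CurvField)
open Pool.Agent.W669.HD (T4 gm cp negT addT unitT OpNonneg BiForm gbc_eq cp_unit unit_bi unit_curv
  add_curv sq_real)

variable {V : Type} [NormedAddCommGroup V] [InnerProductSpace ℝ V]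

theorem rpos : 0 < roundGB 3 1 := by
  have hπ := Real.pi_pos
  rw [roundGB_three]
  positivity

theorem wsq_nonneg (e : OrthonormalBasis (Fin 3 × Bool) ℝ V) (R : V → V → V → V → ℝ)
    (κ : ℝ) : 0 ≤ wsq e R κ := by
  unfold wsq
  have : 0 ≤ ∑ i, ∑ j, ∑ k, ∑ l, (R (e i) (e j) (e k) (e l) - κ * unitCurv i j k l) ^ 2 :=
    Finset.sum_nonneg fun _ _ => Finset.sum_nonneg fun _ _ => Finset.sum_nonneg fun _ _ =>
      Finset.sum_nonneg fun _ _ => sq_nonneg _
  linarith

/-- **the pointwise estimate** -/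
theorem point_abs (e : OrthonormalBasis (Fin 3 × Bool) ℝ V) {R : V → V → V → V → ℝ}
    (hR : AlgCurv R) {κ : ℝ} (hE : Einstein e R κ) :
    |gbc e R - roundGB 3 1 * (κ ^ 3 + κ * wsq e R κ / 30)| ≤
      roundGB 3 1 * (1 / 45 * (wsq e R κ * Real.sqrt (wsq e R κ))) := by
  obtain ⟨p, P, u, C, T, hcard, hw, hg, -, -⟩ := reduceW e hR hE
  have h1 := T.cubic_abs hcard
  rw [hw] at h1 hg
  rw [hg]
  have e1 : roundGB 3 1 * (κ ^ 3 + κ * wsq e R κ / 30 +
      (∑ a, u a ^ 3 - ∑ a, u a * sv p u a) / 90) -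
      roundGB 3 1 * (κ ^ 3 + κ * wsq e R κ / 30) =
      roundGB 3 1 * ((∑ a, u a ^ 3 - ∑ a, u a * sv p u a) / 90) := by ring
  rw [e1, abs_mul, abs_of_pos rpos]
  refine mul_le_mul_of_nonneg_left ?_ rpos.le
  rw [abs_div, abs_of_pos (by norm_num : (0 : ℝ) < 90), div_le_iff₀ (by norm_num)]
  linarith

/-- the lower bound of `κ` times the integrand -/
theorem point_low (e : OrthonormalBasis (Fin 3 × Bool) ℝ V) {R : V → V → V → V → ℝ}
    (hR : AlgCurv R) {κ : ℝ} (hE : Einstein e R κ) :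
    roundGB 3 1 * (|κ| * (|κ| ^ 3 + |κ| * wsq e R κ / 30 -
      1 / 45 * (wsq e R κ * Real.sqrt (wsq e R κ)))) ≤ κ * gbc e R := by
  have h1 := abs_le.mp (point_abs e hR hE)
  rcases le_total 0 κ with h | h
  · rw [abs_of_nonneg h]
    have := mul_le_mul_of_nonneg_left h1.1 h
    linarith
  · rw [abs_of_nonpos h]
    have := mul_le_mul_of_nonneg_left h1.2 (neg_nonneg.2 h)
    nlinarith [this]

theorem poly_pos {k Q : ℝ} (hk : 0 < k) (hQ : 0 ≤ Q) (h : Q ≤ 17 * k ^ 2) :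
    0 < k ^ 3 + k * Q / 30 - 1 / 45 * (Q * Real.sqrt Q) := by
  have h1 : Real.sqrt Q ≤ 4124 / 1000 * k := by
    rw [Real.sqrt_le_left (by positivity)]
    nlinarith [sq_nonneg k]
  have h2 : Q * Real.sqrt Q ≤ Q * (4124 / 1000 * k) := mul_le_mul_of_nonneg_left h1 hQ
  have h3 : Q * k ≤ 17 * k ^ 2 * k := mul_le_mul_of_nonneg_right h hk.le
  have h4 : 0 < k ^ 3 := by positivity
  nlinarith

/-- the sign -/
theorem point_sign (e : OrthonormalBasis (Fin 3 × Bool) ℝ V) {R : V → V → V → V → ℝ}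
    (hR : AlgCurv R) {κ : ℝ} (hκ : κ ≠ 0) (hE : Einstein e R κ) (h : wsq e R κ ≤ 17 * κ ^ 2) :
    0 < κ * gbc e R := by
  have hk : 0 < |κ| := abs_pos.2 hκ
  have h1 := poly_pos hk (wsq_nonneg e R κ) (by rw [sq_abs]; exact h)
  exact lt_of_lt_of_le (mul_pos rpos (mul_pos hk h1)) (point_low e hR hE)

/-- the two-sided theorem, positive version -/
theorem two_pos (e : OrthonormalBasis (Fin 3 × Bool) ℝ V) {R : V → V → V → V → ℝ}
    (hR : AlgCurv R) {κ β γ : ℝ} (hκ : 0 < κ) (hE : Einstein e R κ)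
    (h1 : OpNonneg (addT R fun x y z w => (β * κ) * unitT x y z w))
    (h2 : OpNonneg (addT (negT R) fun x y z w => (γ * κ) * unitT x y z w)) :
    ((1 + β) * (γ - 1) * (4 * γ + β - 6) ≤ 6 → 0 ≤ gbc e R) ∧
    ((1 + β) * (γ - 1) * (4 * γ + β - 6) < 6 → 0 < gbc e R) := by
  obtain ⟨p, P, u, C, T, hcard, hw, hg, hlo, hhi⟩ := reduceW e hR hE
  have b1 := hlo _ h1
  have b2 := hhi _ h2
  set m := (1 + β) * κ with hm
  set M := (γ - 1) * κ with hM
  have T' := T.toTri.neg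
  have c1 : ∀ a, -M ≤ -u a := fun a => by
    have := b2 a
    rw [hM]; linarith
  have c2 : ∀ a, -u a ≤ m := fun a => by
    have := b1 a
    rw [hm]; linarith
  have k1 := T'.two_sided hcard (κ := κ) c1 c2
  have k2 := T'.norm_le hcard c1 c2
  simp only [sv_neg, neg_sq] at k1 k2
  have e1 : ∑ a, -u a * sv p u a = -∑ a, u a * sv p u a := by
    rw [← Finset.sum_neg_distrib]
    exact Finset.sum_congr rfl fun a _ => by ring
  have e2 : ∑ a, (-u a) ^ 3 = -∑ a, u a ^ 3 := by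
    rw [← Finset.sum_neg_distrib]
    exact Finset.sum_congr rfl fun a _ => by ring
  rw [e1, e2] at k1
  set Q := ∑ a, u a ^ 2 with hQ
  have hQ0 : 0 ≤ Q := Finset.sum_nonneg fun a _ => sq_nonneg _
  set N := ∑ a, u a ^ 3 - ∑ a, u a * sv p u a with hN
  have hgv : gbc e R = roundGB 3 1 * ((90 * κ ^ 3 + 3 * κ * Q + N) / 90) := by
    rw [hg]; ring
  have k3 : 90 * κ ^ 3 - 15 * m * M ^ 2 + (3 * κ - 3 * M - m) * Q ≤
      90 * κ ^ 3 + 3 * κ * Q + N := by
    rw [hN]; linarith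
  -- signs of `m` and `M`
  have hcard' : (univ : Finset (Pr (Fin 3 × Bool))).card = 15 := by rw [Finset.card_univ, hcard]
  have hm0 : 0 ≤ m := by
    have := Finset.sum_le_sum fun a (_ : a ∈ univ) => c2 a
    rw [T'.sm, Finset.sum_const, hcard', nsmul_eq_mul] at this
    push_cast at this
    linarith
  have hM0 : 0 ≤ M := by
    have := Finset.sum_le_sum fun a (_ : a ∈ univ) => c1 a
    rw [T'.sm, Finset.sum_const, hcard', nsmul_eq_mul] at this
    push_cast at this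
    linarith
  have hk3 : 0 < κ ^ 3 := by positivity
  have key : 15 * κ ^ 3 * (6 - (1 + β) * (γ - 1) * (4 * γ + β - 6)) ≤
      90 * κ ^ 3 + 3 * κ * Q + N ∨ 0 < 90 * κ ^ 3 + 3 * κ * Q + N := by
    rcases le_total (3 * κ - 3 * M - m) 0 with h | h
    · left
      have h3 : (3 * κ - 3 * M - m) * (15 * (m * M)) ≤ (3 * κ - 3 * M - m) * Q :=
        mul_le_mul_of_nonpos_left k2 h
      refine le_trans (le_of_eq ?_) (le_trans (add_le_add_right h3 (90 * κ ^ 3 - 15 * m * M ^ 2))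
        k3)
      rw [hm, hM]
      ring
    · right
      have h3 : 0 ≤ (3 * κ - 3 * M - m) * Q := mul_nonneg h hQ0
      have hMκ : M ≤ κ := by linarith
      have h4 : m * M ^ 2 ≤ 3 * (κ - M) * M ^ 2 :=
        mul_le_mul_of_nonneg_right (by linarith) (sq_nonneg _)
      have h5 : (κ - M) * M ^ 2 ≤ κ ^ 3 := by
        have h6 : M ^ 2 ≤ κ ^ 2 := pow_le_pow_left₀ hM0 hMκ 2
        have h7 : (κ - M) * M ^ 2 ≤ (κ - M) * κ ^ 2 :=
          mul_le_mul_of_nonneg_left h6 (by linarith)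
        have h8 : 0 ≤ M * κ ^ 2 := by positivity
        nlinarith
      nlinarith
  rw [hgv]
  have hr := rpos
  constructor
  · intro h
    refine mul_nonneg hr.le ?_
    rcases key with h3 | h3
    · have : 0 ≤ 15 * κ ^ 3 * (6 - (1 + β) * (γ - 1) * (4 * γ + β - 6)) :=
        mul_nonneg (by positivity) (by linarith)
      linarith
    · linarith
  · intro h
    refine mul_pos hr ?_
    rcases key with h3 | h3
    · have : 0 < 15 * κ ^ 3 * (6 - (1 + β) * (γ - 1) * (4 * γ + β - 6)) :=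
        mul_pos (by positivity) (by linarith)
      linarith
    · linarith

/-- the two-sided theorem, negative version -/
theorem two_neg (e : OrthonormalBasis (Fin 3 × Bool) ℝ V) {R : V → V → V → V → ℝ}
    (hR : AlgCurv R) {κ β γ : ℝ} (hκ : 0 < κ) (hE : Einstein e R (-κ))
    (h1 : OpNonneg (addT (negT R) fun x y z w => (β * κ) * unitT x y z w))
    (h2 : OpNonneg (addT R fun x y z w => (γ * κ) * unitT x y z w)) :
    ((1 + β) * (γ - 1) * (4 * γ + β - 6) ≤ 6 → gbc e R ≤ 0) ∧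
    ((1 + β) * (γ - 1) * (4 * γ + β - 6) < 6 → gbc e R < 0) := by
  have hE' := hE.neg
  rw [neg_neg] at hE'
  have h3 := two_pos e (neg_curv hR) hκ hE' h1 (by rw [negneg]; exact h2)
  have e1 : gbc e (negT R) = - gbc e R := by
    have h4 := gbc_neg e R
    have h5 : (-1 : ℝ) ^ 3 * gbc e (negT R) = - gbc e (negT R) := by ring
    rw [h5] at h4
    linarith
  rw [e1] at h3
  exact ⟨fun h => by linarith [h3.1 h], fun h => by linarith [h3.2 h]⟩

end Pool.Agent.U486.EW
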