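import Pool.Agent.TH594.HE.Fam
import Pool.Agent.U486.EW.Abs

/-!
# The wedge numbers of an eigenfamily in dimension six
-/

set_option autoImplicit false

namespace Pool.Agent.U486.EW

open Finset Pool.Agent.TH594.HP Pool.Agent.TH594.HE

variable {J : Type*} [Fintype J] [DecidableEq J] {K : Type*} [Fintype K]

/-- completeness of a family of two-forms -/
def Comp (h : K → Matrix J J ℝ) : Prop :=
  ∀ i j k l, EE (nu h) i j k l =
    (if i = k then 1 else 0) * (if j = l then 1 else 0) -
      (if i = l then 1 else 0) * (if j = k then 1 else 0)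

/-- the sum of the squares of the products with a complete family -/
theorem Ls_unit {h : K → Matrix J J ℝ} (hc : Comp h) {d : ℕ} {f : Fk J} (hf : Dg d f) :
    Ls (nu h) f = 2 * (Fintype.card J - d) * (Fintype.card J - d - 1) * nn f := by
  have h0 : Ls (nu h) f =
      ∑ i, ∑ j, ∑ k, ∑ l, EE (nu h) i j k l * ip (cr i (cr j f)) (cr k (cr l f)) := by
    unfold Ls
    simp only [Pool.Agent.TH594.HP.L_apply]
    exact sq_expand (nu h) fun i j => cr i (cr j f)
  have h1 : ∀ (i j : J) (G : J → J → ℝ), ∑ k, ∑ l, ((if i = k then (1 : ℝ) else 0) *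
      (if j = l then 1 else 0) - (if i = l then 1 else 0) * (if j = k then 1 else 0)) * G k l =
      G i j - G j i := by
    intro i j G
    have e1 : ∀ k, ∑ l, ((if i = k then (1 : ℝ) else 0) *
      (if j = l then 1 else 0) - (if i = l then 1 else 0) * (if j = k then 1 else 0)) * G k l =
      (if i = k then (1 : ℝ) else 0) * G k j - (if j = k then 1 else 0) * G k i := by
      intro k
      have e2 : ∀ l, ((if i = k then (1 : ℝ) else 0) *
        (if j = l then 1 else 0) - (if i = l then 1 else 0) * (if j = k then 1 else 0)) * G k l =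
        (if j = l then (if i = k then (1 : ℝ) else 0) * G k l else 0) -
        (if i = l then (if j = k then (1 : ℝ) else 0) * G k l else 0) := by
        intro l
        split_ifs <;> ring
      simp only [e2, Finset.sum_sub_distrib, Finset.sum_ite_eq, Finset.mem_univ, if_true]
    simp only [e1, Finset.sum_sub_distrib]
    simp only [ite_mul, one_mul, zero_mul, Finset.sum_ite_eq, Finset.mem_univ, if_true]
  have h2 : ∀ i j, ∑ k, ∑ l, EE (nu h) i j k l * ip (cr i (cr j f)) (cr k (cr l f)) =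
      2 * nn (cr i (cr j f)) := by
    intro i j
    simp only [hc i j]
    rw [h1 i j (fun k l => ip (cr i (cr j f)) (cr k (cr l f))), cr_cr j i f, ip_neg_right]
    unfold nn
    ring
  rw [h0]
  simp only [h2]
  rw [Finset.sum_comm]
  have h3 : ∀ j, ∑ i, 2 * nn (cr i (cr j f)) =
      2 * ((Fintype.card J - d - 1) * nn (cr j f)) := by
    intro j
    rw [← Finset.mul_sum, sum_nn_cr (Dg_cr hf j)]
    push_cast
    ring
  simp only [h3]
  rw [← Finset.mul_sum, ← Finset.mul_sum, sum_nn_cr hf]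
  ring

/-- the wedge numbers of pairs -/
noncomputable def PP (h : K → Matrix J J ℝ) (a b : K) : ℝ :=
  nn (LM (h b) (LM (h a) (vac : Fk J))) / 16

/-- the wedge numbers of triples -/
noncomputable def pp (h : K → Matrix J J ℝ) (a b c : K) : ℝ :=
  nn (LM (h c) (LM (h b) (LM (h a) (vac : Fk J)))) / 64

theorem pp_nonneg (h : K → Matrix J J ℝ) (a b c : K) : 0 ≤ pp h a b c := by
  unfold pp
  have := nn_nonneg (LM (h c) (LM (h b) (LM (h a) (vac : Fk J))))
  linarith

theorem pp_s1 (h : K → Matrix J J ℝ) (a b c : K) : pp h a b c = pp h b a c := by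
  unfold pp
  rw [LM_comm (h b) (h a)]

theorem pp_s2 (h : K → Matrix J J ℝ) (a b c : K) : pp h a b c = pp h a c b := by
  unfold pp
  rw [LM_comm (h c) (h b)]

theorem tr_two_sq {A B : Matrix J J ℝ} (sA : Sk A) (sB : Sk B) :
    0 ≤ Matrix.trace (A * A * B * B) := by
  have e1 : Matrix.trace (A * A * B * B) = Matrix.trace ((A * B).transpose * (A * B)) := by
    rw [Matrix.transpose_mul, sA.transpose, sB.transpose]
    have : -B * -A * (A * B) = B * (A * A * B) := by noncomm_ring
    rw [this, Matrix.trace_mul_comm]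
  rw [e1]
  unfold Matrix.trace
  refine Finset.sum_nonneg fun k _ => ?_
  rw [Matrix.diag_apply, Matrix.mul_apply]
  refine Finset.sum_nonneg fun l _ => ?_
  rw [Matrix.transpose_apply]
  exact mul_self_nonneg _

theorem tr_sq_ge {S : Matrix J J ℝ} (hS : ∀ i j, S j i = S i j) :
    Matrix.trace S ^ 2 ≤ Fintype.card J * Matrix.trace (S * S) := by
  have h1 : Matrix.trace S ^ 2 ≤ Fintype.card J * ∑ i, S i i ^ 2 := by
    unfold Matrix.trace
    have := sq_sum_le_card_mul_sum_sq (s := (univ : Finset J)) (f := fun i => S i i)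
    simpa [Matrix.diag] using this
  have h2 : ∑ i, S i i ^ 2 ≤ Matrix.trace (S * S) := by
    unfold Matrix.trace
    refine Finset.sum_le_sum fun i _ => ?_
    rw [Matrix.diag_apply, Matrix.mul_apply]
    have h3 : S i i ^ 2 = S i i * S i i := by ring
    rw [h3]
    refine Finset.single_le_sum (f := fun j => S i j * S j i) (fun j _ => ?_) (Finset.mem_univ i)
    rw [hS i j]
    exact mul_self_nonneg _
  have h3 : (0 : ℝ) ≤ Fintype.card J := Nat.cast_nonneg _
  exact h1.trans (mul_le_mul_of_nonneg_left h2 h3)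

section fam

variable {h : Pr J → Matrix J J ℝ} {lam : Pr J → ℝ} {ρ : ℝ}

theorem PP_eq (F : Fam h lam ρ) (a b : Pr J) :
    PP h a b = (if a = b then 1 else 0) + 1 - Matrix.trace (h a * h a * h b * h b) := by
  unfold PP
  rw [nn_four (F.eh.sk b) (F.eh.sk a), F.oh.1, F.oh.1, sp_tr (F.eh.sk a)]
  have t1 : Matrix.trace (h a * (h b * h b * h a)) = Matrix.trace (h a * h a * h b * h b) := by
    rw [← Matrix.mul_assoc, Matrix.trace_mul_comm]
    simp only [Matrix.mul_assoc]
  rw [t1]
  by_cases hab : a = b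
  · subst hab
    rw [if_pos rfl, F.oh.1]
    ring
  · rw [if_neg hab, F.oh.2 b a (Ne.symm hab)]
    ring

theorem PP_od (F : Fam h lam ρ) (a b : Pr J) (hab : a ≠ b) : PP h a b ≤ 1 := by
  rw [PP_eq F, if_neg hab]
  have := tr_two_sq (F.eh.sk a) (F.eh.sk b)
  linarith

theorem PP_dg (F : Fam h lam ρ) (hN : Fintype.card J = 6) (a : Pr J) : PP h a a ≤ 4 / 3 := by
  rw [PP_eq F, if_pos rfl]
  have sA := F.eh.sk a
  have h1 := tr_sq_ge (S := h a * h a) (fun i j => by
    simp only [Matrix.mul_apply]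
    refine Finset.sum_congr rfl fun k _ => ?_
    rw [sA j k, sA i k, sA k j, sA k i]
    rw [sA j k, sA i k]
    ring)
  have h2 : Matrix.trace (h a * h a) = -2 := by
    have := sp_tr sA (h a)
    rw [F.oh.1] at this
    linarith
  rw [h2, hN] at h1
  have h3 : h a * h a * (h a * h a) = h a * h a * h a * h a := by
    simp only [Matrix.mul_assoc]
  rw [h3] at h1
  push_cast at h1
  linarith

theorem PP_m1 (F : Fam h lam ρ) (hc : Comp h) (hN : Fintype.card J = 6) (a b : Pr J) :
    ∑ c, pp h a b c = PP h a b := by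
  have e2 : Dg 4 (LM (h b) (LM (h a) (vac : Fk J))) := Dg_LM (Dg_LM Dg_vac _) _
  have h1 := Ls_unit hc e2
  rw [hN] at h1
  unfold pp PP
  rw [← Finset.sum_div]
  have h2 : ∑ c, nn (LM (h c) (LM (h b) (LM (h a) (vac : Fk J)))) =
      Ls (nu h) (LM (h b) (LM (h a) (vac : Fk J))) := rfl
  rw [h2, h1]
  push_cast
  ring

theorem PP_m2 (F : Fam h lam ρ) (hc : Comp h) (hN : Fintype.card J = 6) (a : Pr J) :
    ∑ b, PP h a b = 6 := by
  have e2 : Dg 2 (LM (h a) (vac : Fk J)) := Dg_LM Dg_vac _
  have h1 := Ls_unit hc e2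
  rw [hN, nn_two (F.eh.sk a), F.oh.1] at h1
  unfold PP
  rw [← Finset.sum_div]
  have h2 : ∑ c, nn (LM (h c) (LM (h a) (vac : Fk J))) =
      Ls (nu h) (LM (h a) (vac : Fk J)) := rfl
  rw [h2, h1]
  push_cast
  norm_num

theorem LM_sm (t : ℝ) (A : Matrix J J ℝ) (f : Fk J) : LM (t • A) f = t • LM A f := L_smul t A f

/-- the sum with the eigenvalues -/
theorem PP_lam (F : Fam h lam ρ) (hN : Fintype.card J = 6) (a : Pr J) :
    ∑ b, lam b * PP h a b = lam a + ρ := by
  set ν := fun p => Real.sqrt (lam p) • h p with hν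
  have e2 : Dg 2 (LM (h a) (vac : Fk J)) := Dg_LM Dg_vac _
  have e1 := Ls_eq F.ev.bi.anti (LM (h a) (vac : Fk J))
  rw [F.ev.tt, F.ev.Rn e2, An_two ν F.ev.sk (F.eh.sk a), nn_two (F.eh.sk a), F.oh.1, hN] at e1
  have h3 : ∑ b, sp (ν b) (h a) ^ 2 = lam a := by
    rw [Finset.sum_eq_single a]
    · rw [hν]
      simp only
      rw [sp_smul', F.oh.1, mul_one, pow_two, Real.mul_self_sqrt (F.pos a)]
    · intro b _ hb
      rw [hν]
      simp only
      rw [sp_smul', F.oh.2 b a hb, mul_zero]
      norm_num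
    · simp
  rw [h3] at e1
  have h2 : Ls (nu ν) (LM (h a) (vac : Fk J)) = 16 * ∑ b, lam b * PP h a b := by
    unfold Ls PP
    rw [Finset.mul_sum]
    refine Finset.sum_congr rfl fun b _ => ?_
    have e3 : L (nu ν b) (LM (h a) (vac : Fk J)) =
        Real.sqrt (lam b) • LM (h b) (LM (h a) (vac : Fk J)) := by
      have := LM_sm (Real.sqrt (lam b)) (h b) (LM (h a) (vac : Fk J))
      rw [← this]
      rfl
    rw [e3, nn_smul, Real.sq_sqrt (F.pos b)]
    ring
  rw [h2] at e1
  push_cast at e1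
  linarith

theorem card_Pr (F : Fam h lam ρ) (hN : Fintype.card J = 6) : Fintype.card (Pr J) = 15 := by
  have h1 := F.card
  rw [hN] at h1
  have h2 : ((Fintype.card (Pr J) : ℕ) : ℝ) = ((15 : ℕ) : ℝ) := by
    rw [h1]; norm_num
  exact_mod_cast h2

/-- the traceless eigenvalues and the wedge numbers -/
theorem tri (F : Fam h lam ρ) (hc : Comp h) (hN : Fintype.card J = 6) :
    Tri (pp h) (PP h) (fun a => lam a - ρ / 5) where
  p0 := pp_nonneg h
  s1 := pp_s1 h
  s2 := pp_s2 h
  m1 := PP_m1 F hc hN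
  m2 := PP_m2 F hc hN
  ev a := by
    have h1 := PP_lam F hN a
    have h2 := PP_m2 F hc hN a
    have e1 : ∀ b, PP h a b * (lam b - ρ / 5) = lam b * PP h a b - ρ / 5 * PP h a b := by
      intro b; ring
    simp only [e1, Finset.sum_sub_distrib, ← Finset.mul_sum]
    rw [h1, h2]; ring
  sm := by
    have h1 := lam_sum F.ev F.ov
    rw [hN] at h1
    rw [Finset.sum_sub_distrib, h1, Finset.sum_const, Finset.card_univ, card_Pr F hN, nsmul_eq_mul]
    push_cast
    ring
  dg := PP_dg F hN
  od := PP_od F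

/-- the third trace -/
theorem w3_tri (F : Fam h lam ρ) :
    w (nu fun p => Real.sqrt (lam p) • h p) 3 =
      64 * ∑ a, ∑ b, ∑ c, pp h a b c * (lam a * lam b * lam c) := by
  rw [w_three']
  simp only [Finset.mul_sum]
  refine Finset.sum_congr rfl fun a _ => Finset.sum_congr rfl fun b _ => ?_
  unfold Ls
  refine Finset.sum_congr rfl fun c _ => ?_
  have e3 : L (nu (fun p => Real.sqrt (lam p) • h p) c)
      (LM (Real.sqrt (lam b) • h b) (LM (Real.sqrt (lam a) • h a) (vac : Fk J))) =
      (Real.sqrt (lam c) * (Real.sqrt (lam b) * Real.sqrt (lam a))) •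
        LM (h c) (LM (h b) (LM (h a) (vac : Fk J))) := by
    have e4 : LM (Real.sqrt (lam b) • h b) (LM (Real.sqrt (lam a) • h a) (vac : Fk J)) =
        (Real.sqrt (lam b) * Real.sqrt (lam a)) • LM (h b) (LM (h a) (vac : Fk J)) := by
      rw [LM_sm, LM_sm, map_smul, smul_smul]
    rw [e4]
    have : L (nu (fun p => Real.sqrt (lam p) • h p) c) ((Real.sqrt (lam b) * Real.sqrt (lam a)) •
        LM (h b) (LM (h a) (vac : Fk J))) = LM (Real.sqrt (lam c) • h c)
        ((Real.sqrt (lam b) * Real.sqrt (lam a)) • LM (h b) (LM (h a) (vac : Fk J))) := rfl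
    rw [this, LM_sm, map_smul, smul_smul]
  rw [e3, nn_smul, mul_pow, mul_pow, Real.sq_sqrt (F.pos c), Real.sq_sqrt (F.pos b),
    Real.sq_sqrt (F.pos a)]
  unfold pp
  ring

end fam

end Pool.Agent.U486.EW
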