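import Pool.Agent.TH594.HE.Rat
import Pool.Agent.U486.EW.Tri

/-!
# The bracket identity

For a member `a` of the eigenfamily of an Einstein tensor in dimension six, the weight `s_a` of the
exterior products is determined by the brackets.
-/

set_option autoImplicit false

namespace Pool.Agent.U486.EW

open Finset Pool.Agent.TH594.HP Pool.Agent.TH594.HE

variable {J : Type*} [Fintype J] [DecidableEq J] {K : Type*} [Fintype K]
variable {ν : K → Matrix J J ℝ} {lam : K → ℝ} {ρ : ℝ}

/-- the sum of the squares of the commutators -/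
theorem sum_br_sq (h : Eis ν ρ) (o : Ort ν lam) :
    ∑ c, ∑ b, br (ν c) (ν b) * br (ν c) (ν b) =
      (-2 : ℝ) • ∑ b, lam b • (ν b * ν b) - (2 * ρ ^ 2) • (1 : Matrix J J ℝ) := by
  classical
  have m1 : ∀ b, ∑ c, ν c * ν b * ν c = -(lam b • ν b) := by
    intro b
    rw [h.mid (h.sk b), Finset.sum_eq_single b]
    · rw [o.1]
    · intro c _ hc
      rw [o.2 c b hc, zero_smul]
    · simp
  have m2 : ∑ c, ν c * ((-ρ) • (1 : Matrix J J ℝ)) * ν c = (ρ ^ 2) • (1 : Matrix J J ℝ) := by
    have : ∀ c, ν c * ((-ρ) • (1 : Matrix J J ℝ)) * ν c = (-ρ) • (ν c * ν c) := by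
      intro c
      rw [Matrix.mul_smul, Matrix.mul_one, Matrix.smul_mul]
    simp only [this]
    rw [← Finset.smul_sum, h.sq, smul_smul]
    congr 1
    ring
  have e1 : ∀ c b, br (ν c) (ν b) * br (ν c) (ν b) =
      (ν c * ν b * ν c) * ν b - ν c * (ν b * ν b) * ν c - ν b * (ν c * ν c) * ν b +
        ν b * (ν c * ν b * ν c) := by
    intro c b
    unfold br
    noncomm_ring
  simp only [e1, Finset.sum_add_distrib, Finset.sum_sub_distrib]
  have t1 : ∑ c, ∑ b, ν c * ν b * ν c * ν b = -∑ b, lam b • (ν b * ν b) := by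
    rw [Finset.sum_comm, ← Finset.sum_neg_distrib]
    refine Finset.sum_congr rfl fun b _ => ?_
    rw [← Finset.sum_mul, m1, Matrix.neg_mul, Matrix.smul_mul]
  have t2 : ∑ c, ∑ b, ν c * (ν b * ν b) * ν c = (ρ ^ 2) • (1 : Matrix J J ℝ) := by
    rw [← m2]
    refine Finset.sum_congr rfl fun c _ => ?_
    rw [← Finset.sum_mul, ← Finset.mul_sum, h.sq]
  have t3 : ∑ c, ∑ b, ν b * (ν c * ν c) * ν b = (ρ ^ 2) • (1 : Matrix J J ℝ) := by
    rw [Finset.sum_comm]
    exact t2
  have t4 : ∑ c, ∑ b, ν b * (ν c * ν b * ν c) = -∑ b, lam b • (ν b * ν b) := by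
    rw [Finset.sum_comm, ← Finset.sum_neg_distrib]
    refine Finset.sum_congr rfl fun b _ => ?_
    rw [← Finset.mul_sum, m1, Matrix.mul_neg, Matrix.mul_smul]
  rw [t1, t2, t3, t4, neg_smul, two_smul, two_mul, add_smul]
  abel

omit [DecidableEq J] in
theorem br_sm (t : ℝ) (A B : Matrix J J ℝ) : br A (t • B) = t • br A B := by
  unfold br
  rw [Matrix.mul_smul, Matrix.smul_mul, smul_sub]

omit [DecidableEq J] in
theorem sp_br_left {A B : Matrix J J ℝ} (hA : Sk A) (hB : Sk B) (C : Matrix J J ℝ) :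
    sp A (br C B) = - sp B (br C A) := by
  unfold br
  rw [sp_tr hA, sp_tr hB, Matrix.mul_sub, Matrix.mul_sub, Matrix.trace_sub, Matrix.trace_sub]
  have t1 : Matrix.trace (A * (C * B)) = Matrix.trace (B * (A * C)) := by
    rw [Matrix.trace_mul_comm B, Matrix.mul_assoc]
  have t2 : Matrix.trace (A * (B * C)) = Matrix.trace (B * (C * A)) := by
    rw [Matrix.trace_mul_comm B, Matrix.mul_assoc, Matrix.trace_mul_comm C, Matrix.mul_assoc]
  rw [t1, t2]; ring

/-- the sum of the exterior products with a two-form -/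
theorem Ls_two (h : Eis ν ρ) (hN : Fintype.card J = 6) {X : Matrix J J ℝ} (hX : Sk X) :
    Ls (nu ν) (LM X (vac : Fk J)) = 16 * ρ * sp X X + 16 * ∑ b, sp (ν b) X ^ 2 := by
  have e1 := Ls_eq h.bi.anti (LM X (vac : Fk J))
  have e2 : Dg 2 (LM X (vac : Fk J)) := Dg_LM Dg_vac _
  rw [h.tt, h.Rn e2, An_two ν h.sk hX, nn_two hX, hN] at e1
  rw [e1]
  push_cast
  ring

section fam

variable {h : Pr J → Matrix J J ℝ} {lam : Pr J → ℝ} {ρ : ℝ}

/-- **the bracket identity** -/
theorem bracket (F : Fam h lam ρ) (hN : Fintype.card J = 6) (a : Pr J) :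
    ∑ b, ∑ c, pp h a b c * (lam b * lam c) =
      ∑ b, lam b ^ 2 * PP h a b + (ρ - lam a) ^ 2 -
        ∑ c, ∑ b, (lam c * lam b) * sp (h b) (br (h c) (h a)) ^ 2 -
        ∑ c, lam c ^ 2 * CC h c a := by
  have hE := F.ev
  have hO := F.ov
  set ν := fun p => Real.sqrt (lam p) • h p with hν
  set H := h a with hH
  have sH : Sk H := F.eh.sk a
  have sν : ∀ b, Sk (ν b) := hE.sk
  have hHH : sp H H = 1 := F.oh.1 a
  have sq : ∀ b, Real.sqrt (lam b) * Real.sqrt (lam b) = lam b := fun b =>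
    Real.mul_self_sqrt (F.pos b)
  -- scalar products with `H`
  have hsp : ∀ b, sp (ν b) H = if b = a then Real.sqrt (lam a) else 0 := by
    intro b
    rw [hν]
    simp only
    rw [sp_smul', hH]
    by_cases hb : b = a
    · subst hb
      rw [if_pos rfl, F.oh.1, mul_one]
    · rw [if_neg hb, F.oh.2 b a hb, mul_zero]
  have hsq : ∑ b, sp (ν b) H ^ 2 = lam a := by
    simp only [hsp]
    rw [Finset.sum_eq_single a]
    · rw [if_pos rfl, pow_two, sq]
    · intro b _ hb
      rw [if_neg hb]; ring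
    · simp
  -- the sum of the squares of the brackets with `H`
  have hbrs : ∑ c, sp (br (ν c) H) (br (ν c) H) = 2 * (ρ - lam a) := by
    have h1 := hE.brsum sH
    rw [hsq, hHH, mul_one] at h1
    rw [← h1]
    exact Finset.sum_congr rfl fun c _ => sp_br_swap _ _
  have hbr : ∀ c, br (ν c) H = Real.sqrt (lam c) • br (h c) H := by
    intro c
    rw [hν]
    unfold br
    simp only [Matrix.smul_mul, Matrix.mul_smul, smul_sub]
  -- the quantity `G`
  have hG : ∑ c, ∑ b, sp (ν b) (br (ν c) H) ^ 2 =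
      ∑ c, ∑ b, (lam c * lam b) * sp (h b) (br (h c) H) ^ 2 := by
    refine Finset.sum_congr rfl fun c _ => Finset.sum_congr rfl fun b _ => ?_
    rw [hbr, hν]
    simp only
    rw [sp_smul, sp_smul']
    have e1 : (Real.sqrt (lam c) * (Real.sqrt (lam b) * sp (h b) (br (h c) H))) ^ 2 =
        (Real.sqrt (lam c) * Real.sqrt (lam c)) * (Real.sqrt (lam b) * Real.sqrt (lam b)) *
          sp (h b) (br (h c) H) ^ 2 := by ring
    rw [e1, sq, sq]
  -- the quantity `V`
  have hV : ∑ c, lam c * sp (br (ν c) H) (br (ν c) H) = ∑ c, lam c ^ 2 * CC h c a := by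
    refine Finset.sum_congr rfl fun c _ => ?_
    rw [hbr, sp_sm2, sq]
    unfold CC
    ring
  -- the left side
  have hq : ∑ b, Ls (nu ν) (LM (ν b) (LM H (vac : Fk J))) =
      64 * ∑ b, ∑ c, pp h a b c * (lam b * lam c) := by
    rw [Finset.mul_sum]
    refine Finset.sum_congr rfl fun b _ => ?_
    rw [Finset.mul_sum]
    unfold Ls
    refine Finset.sum_congr rfl fun c _ => ?_
    have e3 : L (nu ν c) (LM (ν b) (LM H (vac : Fk J))) =
        (Real.sqrt (lam c) * Real.sqrt (lam b)) • LM (h c) (LM (h b) (LM H (vac : Fk J))) := by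
      have e4 : LM (ν b) (LM H (vac : Fk J)) =
          Real.sqrt (lam b) • LM (h b) (LM H (vac : Fk J)) := by
        rw [hν]
        exact LM_sm _ _ _
      rw [e4]
      have : L (nu ν c) (Real.sqrt (lam b) • LM (h b) (LM H (vac : Fk J))) =
          LM (Real.sqrt (lam c) • h c) (Real.sqrt (lam b) • LM (h b) (LM H (vac : Fk J))) := rfl
      rw [this, LM_sm, map_smul, smul_smul]
    rw [e3, nn_smul, mul_pow, Real.sq_sqrt (F.pos c), Real.sq_sqrt (F.pos b)]
    unfold pp
    ring
  have hex : ∀ b, Ls (nu ν) (LM (ν b) (LM H (vac : Fk J))) =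
      4 * ρ * nn (LM (ν b) (LM H (vac : Fk J))) -
        2 * Dn (nu ν) (LM (ν b) (LM H (vac : Fk J))) := by
    intro b
    have e2 : Dg 4 (LM (ν b) (LM H (vac : Fk J))) := Dg_LM (Dg_LM Dg_vac _) _
    rw [hE.exact e2, hN]
    push_cast
    ring
  have hn : ∑ b, nn (LM (ν b) (LM H (vac : Fk J))) = 16 * (ρ + lam a) := by
    have h1 := Ls_two hE hN sH
    rw [hsq, hHH] at h1
    have h2 : ∑ b, nn (LM (ν b) (LM H (vac : Fk J))) = Ls (nu ν) (LM H (vac : Fk J)) := rfl
    rw [h2, h1]; ring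
  -- the derivations
  have hD : ∀ b, Dn (nu ν) (LM (ν b) (LM H (vac : Fk J))) =
      ∑ c, (nn (LM (ν b) (LM (br (ν c) H) (vac : Fk J))) +
        2 * ip (LM (ν b) (LM (br (ν c) H) (vac : Fk J))) (LM (br (ν c) (ν b)) (LM H vac)) +
        nn (LM H (LM (br (ν c) (ν b)) (vac : Fk J)))) := by
    intro b
    unfold Dn
    refine Finset.sum_congr rfl fun c _ => ?_
    have e1 : ∑ i, ∑ j, nu ν c i j • cr i (an j (LM (ν b) (LM H (vac : Fk J)))) =
        Dv (ν c) (LM (ν b) (LM H vac)) := rfl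
    rw [e1, Dv_four (sν b) sH (sν c), nn_add', LM_comm H]
    rfl
  have hT1 : ∑ b, ∑ c, nn (LM (ν b) (LM (br (ν c) H) (vac : Fk J))) =
      32 * ρ * (ρ - lam a) + 16 * ∑ c, ∑ b, sp (ν b) (br (ν c) H) ^ 2 := by
    rw [Finset.sum_comm]
    have e1 : ∀ c, ∑ b, nn (LM (ν b) (LM (br (ν c) H) (vac : Fk J))) =
        16 * ρ * sp (br (ν c) H) (br (ν c) H) + 16 * ∑ b, sp (ν b) (br (ν c) H) ^ 2 :=
      fun c => Ls_two hE hN (br_sk (sν c) sH)
    simp only [e1, Finset.sum_add_distrib, ← Finset.mul_sum]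
    rw [hbrs]; ring
  have hT3 : ∑ b, ∑ c, nn (LM H (LM (br (ν c) (ν b)) (vac : Fk J))) =
      16 * (∑ c, ∑ b, sp (ν b) (br (ν c) H) ^ 2) + 32 * ρ ^ 2 + 32 * lam a ^ 2 -
        32 * ∑ b, lam b ^ 2 * PP h a b := by
    rw [Finset.sum_comm]
    have e1 : ∀ c b, nn (LM H (LM (br (ν c) (ν b)) (vac : Fk J))) =
        16 * sp (ν b) (br (ν c) H) ^ 2 + 16 * sp (br (ν c) (ν b)) (br (ν c) (ν b)) -
          16 * Matrix.trace (H * H * (br (ν c) (ν b) * br (ν c) (ν b))) := by
      intro c b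
      have sB := br_sk (sν c) (sν b)
      rw [nn_four sH sB, hHH, sp_tr sB (H * H * br (ν c) (ν b)),
        sp_br_left sH (sν b) (ν c)]
      have t1 : Matrix.trace (br (ν c) (ν b) * (H * H * br (ν c) (ν b))) =
          Matrix.trace (H * H * (br (ν c) (ν b) * br (ν c) (ν b))) := by
        rw [Matrix.trace_mul_comm]
        simp only [Matrix.mul_assoc]
      rw [t1]; ring
    simp only [e1, Finset.sum_add_distrib, Finset.sum_sub_distrib, ← Finset.mul_sum]
    have e2 : ∑ c, ∑ b, Matrix.trace (H * H * (br (ν c) (ν b) * br (ν c) (ν b))) =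
        -2 * ∑ b, lam b ^ 2 * Matrix.trace (H * H * h b * h b) + 4 * ρ ^ 2 := by
      have e3 : ∑ c, ∑ b, Matrix.trace (H * H * (br (ν c) (ν b) * br (ν c) (ν b))) =
          Matrix.trace (H * H * ∑ c, ∑ b, br (ν c) (ν b) * br (ν c) (ν b)) := by
        simp only [Finset.mul_sum, Matrix.trace_sum]
      rw [e3, sum_br_sq hE hO, Matrix.mul_sub, Matrix.trace_sub, Matrix.mul_smul,
        Matrix.mul_smul, Matrix.mul_one, Matrix.trace_smul, Matrix.trace_smul]
      have e4 : Matrix.trace (H * H) = -2 := by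
        have := sp_tr sH H
        rw [hHH] at this
        linarith
      have e5 : Matrix.trace (H * H * ∑ b, lam b • (ν b * ν b)) =
          ∑ b, lam b ^ 2 * Matrix.trace (H * H * h b * h b) := by
        rw [Finset.mul_sum, Matrix.trace_sum]
        refine Finset.sum_congr rfl fun b _ => ?_
        rw [Matrix.mul_smul, Matrix.trace_smul, hν]
        simp only [Matrix.smul_mul, Matrix.mul_smul, Matrix.trace_smul, smul_eq_mul]
        rw [← Matrix.mul_assoc]
        linear_combination (lam b * Matrix.trace (H * H * h b * h b)) * sq b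
      rw [e4, e5]
      simp only [smul_eq_mul]
      ring
    have e6 : ∑ c, ∑ b, sp (br (ν c) (ν b)) (br (ν c) (ν b)) =
        6 * ρ ^ 2 - 2 * ∑ b, lam b ^ 2 := by
      have e7 : ∀ c, ∑ b, sp (br (ν c) (ν b)) (br (ν c) (ν b)) =
          2 * ρ * lam c - 2 * lam c ^ 2 := by
        intro c
        rw [rowsum hE hO c]; ring
      simp only [e7, Finset.sum_sub_distrib, ← Finset.mul_sum]
      rw [lam_sum hE hO, hN]
      push_cast
      ring
    have e8 : ∑ b, lam b ^ 2 * Matrix.trace (H * H * h b * h b) =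
        ∑ b, lam b ^ 2 + lam a ^ 2 - ∑ b, lam b ^ 2 * PP h a b := by
      have e9 : ∀ b, lam b ^ 2 * Matrix.trace (H * H * h b * h b) =
          lam b ^ 2 + (if a = b then lam b ^ 2 else 0) - lam b ^ 2 * PP h a b := by
        intro b
        rw [PP_eq F]
        split_ifs <;> ring
      simp only [e9, Finset.sum_sub_distrib, Finset.sum_add_distrib, Finset.sum_ite_eq,
        Finset.mem_univ, if_true]
    rw [e2, e6, e8]
    ring
  have hcr : ∑ b, ∑ c, ip (LM (ν b) (LM (br (ν c) H) (vac : Fk J)))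
      (LM (br (ν c) (ν b)) (LM H vac)) =
      -32 * (ρ - lam a) ^ 2 + 16 * ∑ c, lam c * sp (br (ν c) H) (br (ν c) H) := by
    have h1 : ∀ b c, ip (LM (ν b) (LM (br (ν c) H) (vac : Fk J)))
        (LM (br (ν c) (ν b)) (LM H vac)) =
        16 * (sp (ν b) H * sp (br (ν c) H) (br (ν c) (ν b))) +
          32 * sp (br (ν c) H) (br (ν c) (ν b) * ν b * H) := by
      intro b c
      rw [ip_four (sν b) (br_sk (sν c) (sν b)) sH (br_sk (sν c) sH), sp_br_self (sν b)]
      ring
    simp only [h1, Finset.sum_add_distrib]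
    have h2 : ∑ b, ∑ c, 16 * (sp (ν b) H * sp (br (ν c) H) (br (ν c) (ν b))) =
        32 * (lam a * (ρ - lam a)) := by
      rw [Finset.sum_eq_single a]
      · have e1 : ∀ c, 16 * (sp (ν a) H * sp (br (ν c) H) (br (ν c) (ν a))) =
            (16 * lam a) * sp (br (ν c) H) (br (ν c) H) := by
          intro c
          have e2 : br (ν c) (ν a) = Real.sqrt (lam a) • br (ν c) H := by
            have : ν a = Real.sqrt (lam a) • H := rfl
            rw [this, br_sm]
          rw [hsp, if_pos rfl, e2, sp_smul]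
          linear_combination (16 * sp (br (ν c) H) (br (ν c) H)) * sq a
        simp only [e1]
        rw [← Finset.mul_sum, hbrs]; ring
      · intro b _ hb
        refine Finset.sum_eq_zero fun c _ => ?_
        rw [hsp, if_neg hb]; ring
      · simp
    have h3 : ∀ c, ∑ b, sp (br (ν c) H) (br (ν c) (ν b) * ν b * H) =
        -(1 / 2) * ((ρ - lam c) * sp (br (ν c) H) (br (ν c) H)) := by
      intro c
      rw [← sp_sum, ← Finset.sum_mul]
      have e1 : ∑ b, br (ν c) (ν b) * ν b = (-(ρ - lam c)) • ν c := by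
        have e2 : ∀ b, br (ν c) (ν b) * ν b = ν c * (ν b * ν b) - ν b * ν c * ν b := by
          intro b
          unfold br
          noncomm_ring
        simp only [e2, Finset.sum_sub_distrib]
        rw [← Finset.mul_sum, hE.sq, hE.mid (sν c)]
        have e3 : ∑ b, sp (ν b) (ν c) • ν b = lam c • ν c := by
          rw [Finset.sum_eq_single c]
          · rw [hO.1]
          · intro b _ hb
            rw [hO.2 b c hb, zero_smul]
          · simp
        rw [e3, Matrix.mul_smul, Matrix.mul_one, sub_neg_eq_add, ← add_smul]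
        congr 1
        ring
      rw [e1, Matrix.smul_mul, sp_smul, sp_half (br_sk (sν c) sH) (sν c) sH]
      unfold br
      ring
    have h4 : ∑ b, ∑ c, 32 * sp (br (ν c) H) (br (ν c) (ν b) * ν b * H) =
        -32 * (ρ * (ρ - lam a)) + 16 * ∑ c, lam c * sp (br (ν c) H) (br (ν c) H) := by
      rw [Finset.sum_comm]
      simp only [← Finset.mul_sum, h3]
      have e5 : ∀ c, (ρ - lam c) * sp (br (ν c) H) (br (ν c) H) =
          ρ * sp (br (ν c) H) (br (ν c) H) - lam c * sp (br (ν c) H) (br (ν c) H) := by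
        intro c; ring
      simp only [e5, Finset.sum_sub_distrib, ← Finset.mul_sum, hbrs]
      ring
    rw [h2, h4]
    ring
  have hDsum : ∑ b, Dn (nu ν) (LM (ν b) (LM H (vac : Fk J))) =
      ∑ b, ∑ c, nn (LM (ν b) (LM (br (ν c) H) (vac : Fk J))) +
        2 * (∑ b, ∑ c, ip (LM (ν b) (LM (br (ν c) H) (vac : Fk J)))
          (LM (br (ν c) (ν b)) (LM H vac))) +
        ∑ b, ∑ c, nn (LM H (LM (br (ν c) (ν b)) (vac : Fk J))) := by
    simp only [hD, Finset.sum_add_distrib, ← Finset.mul_sum]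
  rw [hT1, hcr, hT3, hG, hV] at hDsum
  simp only [hex, Finset.sum_sub_distrib, ← Finset.mul_sum] at hq
  rw [hn, hDsum] at hq
  linarith

end fam

end Pool.Agent.U486.EW
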