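import Pool.Agent.TH594.HE.Pt
import Pool.Agent.U486.EW.Brk

/-!
# The Gauss-Bonnet-Chern integrand of an Einstein curvature tensor in dimension six
-/

set_option autoImplicit false

namespace Pool.Agent.U486.EW

open Finset Pool.Agent.TH594.HP Pool.Agent.TH594.HE
open Pool.Agent.W666.GB (AlgCurv gbc scal roundGB unitCurv CurvField)
open Pool.Agent.W669.HD (T4 gm cp negT addT unitT OpNonneg BiForm gbc_eq cp_unit unit_bi unit_curv
  add_curv sq_real)

section famC

variable {J : Type*} [Fintype J] [DecidableEq J]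

theorem exists_famC {K : Type*} [Fintype K] (μ : K → J → J → ℝ) (hB : BiN μ) {ρ : ℝ}
    (hr : ∀ i j, rc μ i j = if i = j then ρ else 0) :
    ∃ (h : Pr J → Matrix J J ℝ) (lam : Pr J → ℝ), Fam h lam ρ ∧ Comp h ∧
      (∀ i j k l, EE (nu fun p => Real.sqrt (lam p) • h p) i j k l = EE μ i j k l) ∧
      ∀ i j k l, EE μ i j k l = ∑ p, lam p * (h p i j * h p k l) := by
  obtain ⟨h, lam, hsk, hpos, horth, hcomp, hEE⟩ := decomp μ hB.anti
  have e1 : ∀ i j k l, EE (nu h) i j k l =
        (if i = k then 1 else 0) * (if j = l then 1 else 0) -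
          (if i = l then 1 else 0) * (if j = k then 1 else 0) := hcomp
  have e2 : ∀ i j k l, EE (nu fun p => Real.sqrt (lam p) • h p) i j k l = EE μ i j k l := by
    intro i j k l
    rw [hEE]
    unfold EE nu
    refine Finset.sum_congr rfl fun p _ => ?_
    simp only [Matrix.smul_apply, smul_eq_mul]
    have := Real.mul_self_sqrt (hpos p)
    linear_combination (h p i j * h p k l) * this
  refine ⟨h, lam, ⟨⟨⟨fun a i j => hsk a i j, ?_⟩, ?_⟩, ⟨fun a => ?_, fun a b hab => ?_⟩, hpos,
    ⟨⟨?_, ?_⟩, ?_⟩, ⟨fun a => ?_, fun a b hab => ?_⟩⟩, e1, e2, hEE⟩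
  · intro i j k l
    rw [e1, e1, e1]
    simp only [eq_comm (a := k) (b := j), eq_comm (a := k) (b := i), eq_comm (a := j) (b := i)]
    ring
  · intro j l
    unfold rc
    simp only [e1]
    simp only [if_true, one_mul, Finset.sum_sub_distrib, Finset.sum_const, Finset.card_univ,
      nsmul_eq_mul]
    have : ∑ i, (if i = l then (1 : ℝ) else 0) * (if j = i then 1 else 0) =
        if j = l then 1 else 0 := by
      rw [Finset.sum_eq_single l]
      · simp
      · intro i _ hi
        rw [if_neg hi, zero_mul]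
      · simp
    rw [this]
    split_ifs <;> ring
  · rw [horth, if_pos rfl]
  · rw [horth, if_neg hab]
  · intro a i j
    unfold nu
    simp only [Matrix.smul_apply, smul_eq_mul]
    rw [hsk a i j]; ring
  · intro i j k l
    rw [e2, e2, e2]
    exact hB.bia i j k l
  · intro i j
    rw [← hr]
    unfold rc
    exact Finset.sum_congr rfl fun k _ => e2 _ _ _ _
  · rw [sp_smul, sp_smul', horth, if_pos rfl, mul_one]
    exact Real.mul_self_sqrt (hpos a)
  · rw [sp_smul, sp_smul', horth, if_neg hab, mul_zero, mul_zero]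

end famC

section coord

variable {V : Type*} [NormedAddCommGroup V] [InnerProductSpace ℝ V] {J : Type} [Fintype J]

/-- the form in coordinates is nonnegative -/
def CN (e : J → V) (K : V → V → V → V → ℝ) : Prop :=
  ∀ x : J × J → ℝ, 0 ≤ ∑ p, ∑ q, K (e p.1) (e p.2) (e q.1) (e q.2) * (x p * x q)

theorem CN_of {K : V → V → V → V → ℝ} (e : J → V) (hK : BiForm K) (hn : OpNonneg K) : CN e K := by
  classical
  intro x
  have eqv := (Fintype.equivFin (J × J)).symm
  have h1 := hn _ (fun a => x (eqv a) • e (eqv a).1) (fun a => e (eqv a).2)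
  have h2 : ∑ a, ∑ b, K (x (eqv a) • e (eqv a).1) (e (eqv a).2) (x (eqv b) • e (eqv b).1)
      (e (eqv b).2) = ∑ p, ∑ q, K (e p.1) (e p.2) (e q.1) (e q.2) * (x p * x q) := by
    rw [← Equiv.sum_comp eqv]
    refine Finset.sum_congr rfl fun a _ => ?_
    rw [← Equiv.sum_comp eqv]
    refine Finset.sum_congr rfl fun b _ => ?_
    rw [hK.smul, hK.smul3]
    ring
  rw [← h2]
  exact h1

theorem squares' (e : J → V) {K : V → V → V → V → ℝ} (hK : BiForm K) (hn : CN e K) :
    ∃ (n : ℕ) (ν : Fin n → J → J → ℝ), (∀ a i j, ν a j i = - ν a i j) ∧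
      ∀ i j k l, K (e i) (e j) (e k) (e l) = ∑ a, ν a i j * ν a k l := by
  classical
  obtain ⟨B, hB⟩ := sq_real (J := J × J) (fun p q => K (e p.1) (e p.2) (e q.1) (e q.2))
    (fun p q => (hK.pair _ _ _ _)) (fun x => hn x)
  have eqv := (Fintype.equivFin (J × J)).symm
  have hB' : ∀ i j k l, K (e i) (e j) (e k) (e l) = ∑ a, B a (i, j) * B a (k, l) :=
    fun i j k l => hB (i, j) (k, l)
  refine ⟨Fintype.card (J × J), fun a i j => B (eqv a) (i, j), ?_, ?_⟩
  · have h3 : ∀ i j, ∑ a, (B a (j, i) + B a (i, j)) ^ 2 = 0 := by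
      intro i j
      have h4 : ∑ a, (B a (j, i) + B a (i, j)) ^ 2 = ∑ a, B a (j, i) * B a (j, i) +
          2 * ∑ a, B a (j, i) * B a (i, j) + ∑ a, B a (i, j) * B a (i, j) := by
        rw [Finset.mul_sum, ← Finset.sum_add_distrib, ← Finset.sum_add_distrib]
        refine Finset.sum_congr rfl fun a _ => ?_
        ring
      rw [h4, ← hB', ← hB', ← hB', hK.anti (e i) (e j) (e j) (e i), hK.a34 (e i) (e j) (e i) (e j),
        hK.anti (e i) (e j) (e i) (e j)]
      ring
    intro a i j
    have h5 := (Finset.sum_eq_zero_iff_of_nonneg fun a _ => sq_nonneg _).mp (h3 i j) (eqv a)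
      (Finset.mem_univ _)
    have h6 := pow_eq_zero_iff (two_ne_zero) |>.mp h5
    simp only
    linarith
  · intro i j k l
    rw [hB']
    exact (Equiv.sum_comp eqv (fun a => B a (i, j) * B a (k, l))).symm

end coord

section swap

variable {J : Type} [Fintype J] [DecidableEq J]

/-- the array `T` plus a large multiple of the unit is nonnegative -/
theorem large (T : J × J → J × J → ℝ) (h1 : ∀ p q, T p.swap q = - T p q)
    (h2 : ∀ p q, T p q.swap = - T p q) (x : J × J → ℝ) {c : ℝ}
    (hc : 1 / 2 * (∑ p, ∑ q, |T p q|) ≤ c) :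
    0 ≤ ∑ p, ∑ q, (T p q + c * unitCurv p.1 p.2 q.1 q.2) * (x p * x q) := by
  have sw : ∀ G : J × J → ℝ, ∑ p : J × J, G p.swap = ∑ p : J × J, G p := fun G =>
    Fintype.sum_equiv (Equiv.prodComm J J) _ _ fun p => rfl
  set y : J × J → ℝ := fun p : J × J => x p - x p.swap with hy
  -- the unit part
  have u1 : ∀ p : J × J, ∑ q : J × J, unitCurv p.1 p.2 q.1 q.2 * x q = y p := by
    intro p
    have e1 : ∀ q : J × J, unitCurv p.1 p.2 q.1 q.2 * x q =
        (if p = q then x q else 0) - (if p.swap = q then x q else 0) := by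
      intro q
      unfold unitCurv
      have a1 : (if p = q then x q else 0) =
          (if p.1 = q.1 then (1 : ℝ) else 0) * (if p.2 = q.2 then 1 else 0) * x q := by
        by_cases g1 : p.1 = q.1
        · by_cases g2 : p.2 = q.2
          · rw [if_pos (Prod.ext g1 g2), if_pos g1, if_pos g2]; ring
          · rw [if_neg (fun h => g2 (by rw [h])), if_neg g2]; ring
        · rw [if_neg (fun h => g1 (by rw [h])), if_neg g1]; ring
      have a2 : (if p.swap = q then x q else 0) =
          (if p.1 = q.2 then (1 : ℝ) else 0) * (if p.2 = q.1 then 1 else 0) * x q := by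
        by_cases g1 : p.1 = q.2
        · by_cases g2 : p.2 = q.1
          · rw [if_pos (Prod.ext g2 g1), if_pos g1, if_pos g2]; ring
          · rw [if_neg (fun h => g2 (by rw [← h]; rfl)), if_neg g2]; ring
        · rw [if_neg (fun h => g1 (by rw [← h]; rfl)), if_neg g1]; ring
      rw [a1, a2]; ring
    simp only [e1, Finset.sum_sub_distrib, Finset.sum_ite_eq, Finset.mem_univ, if_true]
    rfl
  have u2 : ∑ p, x p * y p = 1 / 2 * ∑ p, y p ^ 2 := by
    have e1 : ∑ p, y p ^ 2 = ∑ p, x p * y p + ∑ p : J × J, x p.swap * y p.swap := by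
      rw [← Finset.sum_add_distrib]
      refine Finset.sum_congr rfl fun p _ => ?_
      rw [hy]
      simp only [Prod.swap_swap]
      ring
    rw [sw (fun p => x p * y p)] at e1
    linarith
  -- the T part
  have t1 : ∀ p, ∑ q, T p q * y q = 2 * ∑ q, T p q * x q := by
    intro p
    have e1 : ∑ q, T p q * y q = ∑ q, T p q * x q + ∑ q : J × J, T p q.swap * x q.swap := by
      rw [← Finset.sum_add_distrib]
      refine Finset.sum_congr rfl fun q _ => ?_
      rw [h2, hy]
      ring
    rw [sw (fun q => T p q * x q)] at e1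
    linarith
  have t2 : ∀ q, ∑ p, T p q * y p = 2 * ∑ p, T p q * x p := by
    intro q
    have e1 : ∑ p, T p q * y p = ∑ p, T p q * x p + ∑ p : J × J, T p.swap q * x p.swap := by
      rw [← Finset.sum_add_distrib]
      refine Finset.sum_congr rfl fun p _ => ?_
      rw [h1, hy]
      ring
    rw [sw (fun p => T p q * x p)] at e1
    linarith
  have t3 : ∑ p, ∑ q, T p q * (y p * y q) = 4 * ∑ p, ∑ q, T p q * (x p * x q) := by
    have e1 : ∀ p, ∑ q, T p q * (y p * y q) = y p * (2 * ∑ q, T p q * x q) := by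
      intro p
      rw [← t1, Finset.mul_sum]
      exact Finset.sum_congr rfl fun q _ => by ring
    simp only [e1]
    have e2 : ∑ p, y p * (2 * ∑ q, T p q * x q) = 2 * ∑ q, x q * ∑ p, T p q * y p := by
      simp only [Finset.mul_sum]
      rw [Finset.sum_comm]
      exact Finset.sum_congr rfl fun q _ => Finset.sum_congr rfl fun p _ => by ring
    rw [e2]
    simp only [t2]
    simp only [Finset.mul_sum]
    rw [Finset.sum_comm]
    exact Finset.sum_congr rfl fun q _ => Finset.sum_congr rfl fun p _ => by ring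
  have hY : ∀ p, y p ^ 2 ≤ ∑ q, y q ^ 2 := fun p =>
    Finset.single_le_sum (f := fun q => y q ^ 2) (fun q _ => sq_nonneg _) (Finset.mem_univ p)
  have t4 : -(∑ p, ∑ q, |T p q|) * (∑ q, y q ^ 2) ≤ ∑ p, ∑ q, T p q * (y p * y q) := by
    rw [neg_mul, Finset.sum_mul, ← Finset.sum_neg_distrib]
    refine Finset.sum_le_sum fun p _ => ?_
    rw [Finset.sum_mul, ← Finset.sum_neg_distrib]
    refine Finset.sum_le_sum fun q _ => ?_
    have a1 : |y p * y q| ≤ ∑ q, y q ^ 2 := by
      rw [abs_mul]
      have b1 := hY p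
      have b2 := hY q
      have b3 : |y p| ^ 2 = y p ^ 2 := sq_abs _
      have b4 : |y q| ^ 2 = y q ^ 2 := sq_abs _
      nlinarith [sq_nonneg (|y p| - |y q|)]
    have a2 : |T p q * (y p * y q)| ≤ |T p q| * ∑ q, y q ^ 2 := by
      rw [abs_mul]
      exact mul_le_mul_of_nonneg_left a1 (abs_nonneg _)
    have := neg_abs_le (T p q * (y p * y q))
    linarith
  have hYY : 0 ≤ ∑ q, y q ^ 2 := Finset.sum_nonneg fun q _ => sq_nonneg _
  have main : ∑ p, ∑ q, (T p q + c * unitCurv p.1 p.2 q.1 q.2) * (x p * x q) =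
      ∑ p, ∑ q, T p q * (x p * x q) + c * ∑ p, x p * y p := by
    rw [Finset.mul_sum, ← Finset.sum_add_distrib]
    refine Finset.sum_congr rfl fun p _ => ?_
    rw [← u1, Finset.mul_sum, Finset.mul_sum, ← Finset.sum_add_distrib]
    exact Finset.sum_congr rfl fun q _ => by ring
  rw [main, u2]
  have h5 := mul_le_mul_of_nonneg_right hc hYY
  nlinarith

end swap

section point

variable {V : Type} [NormedAddCommGroup V] [InnerProductSpace ℝ V]

/-- the square of the norm of the Weyl operator of an Einstein tensor with constant `κ`: one quarter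
of the sum of the squares of the components of `R - κ` -/
noncomputable def wsq (e : OrthonormalBasis (Fin 3 × Bool) ℝ V) (R : V → V → V → V → ℝ)
    (κ : ℝ) : ℝ :=
  1 / 4 * ∑ i, ∑ j, ∑ k, ∑ l, (R (e i) (e j) (e k) (e l) - κ * unitCurv i j k l) ^ 2

theorem sum4_sq {J : Type*} [Fintype J] {P : Type*} [Fintype P] (a : P → ℝ) (h : P → J → J → ℝ)
    (g : P → P → ℝ) (hg : ∀ p q, ∑ i, ∑ j, h p i j * h q i j = g p q) :
    ∑ i, ∑ j, ∑ k, ∑ l, (∑ p, a p * (h p i j * h p k l)) ^ 2 =
      ∑ p, ∑ q, a p * a q * (g p q * g p q) := by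
  have e1 : ∀ i j k l, (∑ p, a p * (h p i j * h p k l)) ^ 2 =
      ∑ p, ∑ q, a p * a q * ((h p i j * h q i j) * (h p k l * h q k l)) := by
    intro i j k l
    rw [pow_two, Finset.sum_mul_sum]
    exact Finset.sum_congr rfl fun p _ => Finset.sum_congr rfl fun q _ => by ring
  simp only [e1]
  have c1 : ∀ G : J → J → J → J → P → P → ℝ, ∑ i, ∑ j, ∑ k, ∑ l, ∑ p, ∑ q, G i j k l p q =
      ∑ p, ∑ q, ∑ i, ∑ j, ∑ k, ∑ l, G i j k l p q := by
    intro G
    have d1 : ∀ H : J → P → P → ℝ, ∑ i, ∑ p, ∑ q, H i p q = ∑ p, ∑ q, ∑ i, H i p q := by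
      intro H
      rw [Finset.sum_comm]
      exact Finset.sum_congr rfl fun p _ => Finset.sum_comm
    simp only [d1]
  rw [c1]
  refine Finset.sum_congr rfl fun p _ => Finset.sum_congr rfl fun q _ => ?_
  rw [← hg p q, Finset.sum_mul, Finset.mul_sum]
  refine Finset.sum_congr rfl fun i _ => ?_
  rw [Finset.sum_mul, Finset.mul_sum]
  refine Finset.sum_congr rfl fun j _ => ?_
  rw [Finset.mul_sum, Finset.mul_sum]
  refine Finset.sum_congr rfl fun k _ => ?_
  rw [Finset.mul_sum, Finset.mul_sum]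

theorem quad_g {J : Type*} [Fintype J] {P : Type*} [Fintype P] (a : P → ℝ) (h : P → J → J → ℝ)
    (g : P → P → ℝ) (hg : ∀ p q, ∑ i, ∑ j, h p i j * h q i j = g p q) (s : P) :
    ∑ p : J × J, ∑ q : J × J, (∑ r, a r * (h r p.1 p.2 * h r q.1 q.2)) *
      (h s p.1 p.2 * h s q.1 q.2) = ∑ r, a r * (g r s * g r s) := by
  have e0 : ∀ r, ∑ p : J × J, h r p.1 p.2 * h s p.1 p.2 = g r s := by
    intro r
    rw [← hg r s, Fintype.sum_prod_type]
  have e1 : ∀ p : J × J, ∑ q : J × J, (∑ r, a r * (h r p.1 p.2 * h r q.1 q.2)) *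
      (h s p.1 p.2 * h s q.1 q.2) = ∑ r, a r * (h r p.1 p.2 * h s p.1 p.2) * g r s := by
    intro p
    simp only [Finset.sum_mul]
    rw [Finset.sum_comm]
    refine Finset.sum_congr rfl fun r _ => ?_
    rw [← e0 r, Finset.mul_sum]
    exact Finset.sum_congr rfl fun q _ => by ring
  simp only [e1]
  rw [Finset.sum_comm]
  refine Finset.sum_congr rfl fun r _ => ?_
  have e2 : ∀ p : J × J, a r * (h r p.1 p.2 * h s p.1 p.2) * g r s =
      (a r * g r s) * (h r p.1 p.2 * h s p.1 p.2) := by
    intro p; ring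
  simp only [e2]
  rw [← Finset.mul_sum, e0]
  ring

theorem roundGB_three : roundGB 3 1 = 1 / ((8 * Real.pi) ^ 3 * (3 : ℕ).factorial) * 5760 := by
  have hπ := Real.pi_pos
  unfold roundGB
  have : (8 * Real.pi) ^ 3 = 8 * (4 * Real.pi) ^ 3 := by ring
  rw [this]
  have h6 : ((2 * 3).factorial : ℝ) = 720 := by norm_num [Nat.factorial]
  rw [h6]
  field_simp
  norm_num

/-- the reduction to eigenvalues -/
theorem reduceW (e : OrthonormalBasis (Fin 3 × Bool) ℝ V) {R : V → V → V → V → ℝ}
    (hR : AlgCurv R) {κ : ℝ} (hE : Einstein e R κ) :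
    ∃ (p : Pr (Fin 3 × Bool) → Pr (Fin 3 × Bool) → Pr (Fin 3 × Bool) → ℝ)
      (P : Pr (Fin 3 × Bool) → Pr (Fin 3 × Bool) → ℝ) (u : Pr (Fin 3 × Bool) → ℝ)
      (C : Pr (Fin 3 × Bool) → Pr (Fin 3 × Bool) → ℝ), Tri2 p P u C ∧
      Fintype.card (Pr (Fin 3 × Bool)) = 15 ∧ ∑ a, u a ^ 2 = wsq e R κ ∧
      gbc e R = roundGB 3 1 *
        (κ ^ 3 + κ * (∑ a, u a ^ 2) / 30 + (∑ a, u a ^ 3 - ∑ a, u a * sv p u a) / 90) ∧
      (∀ t, OpNonneg (addT R fun x y z w => t * unitT x y z w) → ∀ a, -(t + κ) ≤ u a) ∧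
      (∀ t, OpNonneg (addT (negT R) fun x y z w => t * unitT x y z w) → ∀ a, u a ≤ t - κ) := by
  have hNc : Fintype.card (Fin 3 × Bool) = 6 := by simp
  have hcoord : ∀ c : ℝ, ∀ i j k l, addT R (fun x y z w => c * unitT x y z w) (e i) (e j) (e k)
      (e l) = R (e i) (e j) (e k) (e l) + c * unitCurv i j k l := by
    intro c i j k l
    unfold addT
    simp only [cp_unit]
  obtain ⟨c, hc0, hcc⟩ : ∃ c : ℝ, 0 ≤ c ∧ CN (fun i => e i)
      (addT R fun x y z w => c * unitT x y z w) := by
    refine ⟨1 / 2 * (∑ p : (Fin 3 × Bool) × (Fin 3 × Bool), ∑ q : (Fin 3 × Bool) × (Fin 3 × Bool),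
      |R (e p.1) (e p.2) (e q.1) (e q.2)|), ?_, ?_⟩
    · have : 0 ≤ ∑ p : (Fin 3 × Bool) × (Fin 3 × Bool), ∑ q : (Fin 3 × Bool) × (Fin 3 × Bool),
        |R (e p.1) (e p.2) (e q.1) (e q.2)| :=
        Finset.sum_nonneg fun _ _ => Finset.sum_nonneg fun _ _ => abs_nonneg _
      linarith
    · intro x
      simp only [hcoord]
      refine large (fun p q => R (e p.1) (e p.2) (e q.1) (e q.2)) ?_ ?_ x le_rfl
      · intro p q
        exact hR.anti _ _ _ _
      · intro p q
        have h1 := hR.pair (e p.1) (e p.2) (e q.2) (e q.1)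
        have h2 := hR.anti (e q.1) (e q.2) (e p.1) (e p.2)
        have h3 := hR.pair (e p.1) (e p.2) (e q.1) (e q.2)
        simp only [Prod.fst_swap, Prod.snd_swap]
        linarith
  set E : V → V → V → V → ℝ := addT R fun x y z w => c * unitT x y z w with hEdef
  have hC : AlgCurv E := add_curv hR (unit_curv c)
  have hB : BiForm E := ⟨hC.add, hC.smul, hC.anti, hC.pair⟩
  obtain ⟨n, ν, hν, hEν⟩ := squares' (fun i => e i) hB hcc
  have hEE : ∀ i j k l, EE ν i j k l = E (e i) (e j) (e k) (e l) := fun i j k l =>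
    (hEν i j k l).symm
  have hBN : BiN ν := by
    refine ⟨hν, fun i j k l => ?_⟩
    rw [hEE, hEE, hEE]
    exact hC.bianchi _ _ _ _
  have hrc : ∀ j l, rc ν j l = if j = l then 5 * (c + κ) else 0 := by
    intro j l
    unfold rc
    simp only [hEE, hEdef, addT, cp_unit, Finset.sum_add_distrib]
    rw [hE (e j) (e l), inner_basis]
    have h1 : ∑ i : Fin 3 × Bool, c * unitCurv i j i l =
        c * ((2 * (3 : ℕ) - 1) * if j = l then 1 else 0) := by
      rw [← Finset.mul_sum]
      congr 1
      unfold unitCurv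
      simp only [if_true, one_mul, Finset.sum_sub_distrib, Finset.sum_const, Finset.card_univ,
        nsmul_eq_mul]
      have : ∑ i : Fin 3 × Bool, (if i = l then (1 : ℝ) else 0) * (if j = i then 1 else 0) =
          if j = l then 1 else 0 := by
        rw [Finset.sum_eq_single l]
        · simp
        · intro i _ hi
          rw [if_neg hi, zero_mul]
        · simp
      rw [this, card_J]; ring
    rw [h1]
    push_cast
    split_ifs <;> ring
  obtain ⟨g, lam, hF, hcomp, hg, hlam⟩ := exists_famC ν hBN hrc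
  have T2 := tri2 hF hcomp hNc
  have T := T2.toTri
  have hr5 : 5 * (c + κ) / 5 = c + κ := by ring
  have hcard := card_Pr hF hNc
  -- the components of `R`
  have hRc : ∀ i j k l, R (e i) (e j) (e k) (e l) - κ * unitCurv i j k l =
      ∑ p, (lam p - 5 * (c + κ) / 5) * (g p i j * g p k l) := by
    intro i j k l
    have h1 : ∑ p, g p i j * g p k l = unitCurv i j k l := hcomp i j k l
    have h2 := hlam i j k l
    rw [hEE, hEdef, hcoord] at h2
    have h3 : ∑ p, (lam p - 5 * (c + κ) / 5) * (g p i j * g p k l) =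
        ∑ p, lam p * (g p i j * g p k l) - (c + κ) * ∑ p, g p i j * g p k l := by
      rw [Finset.mul_sum, ← Finset.sum_sub_distrib]
      exact Finset.sum_congr rfl fun p _ => by ring
    rw [h3, h1, ← h2]; ring
  have hgg : ∀ p q, ∑ i, ∑ j, g p i j * g q i j = if p = q then 2 else 0 := by
    intro p q
    have : sp (g p) (g q) = if p = q then 1 else 0 := by
      by_cases hpq : p = q
      · subst hpq; rw [if_pos rfl, hF.oh.1]
      · rw [if_neg hpq, hF.oh.2 p q hpq]
    unfold sp at this
    split_ifs at this ⊢ <;> linarith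
  refine ⟨pp g, PP g, fun a => lam a - 5 * (c + κ) / 5, fun a b => CC g b a, T2, hcard, ?_, ?_,
    ?_, ?_⟩
  · unfold wsq
    simp only [hRc]
    rw [sum4_sq _ _ _ hgg]
    have h1 : ∀ p, ∑ q, (lam p - 5 * (c + κ) / 5) * (lam q - 5 * (c + κ) / 5) *
        ((if p = q then (2 : ℝ) else 0) * (if p = q then 2 else 0)) =
        4 * (lam p - 5 * (c + κ) / 5) ^ 2 := by
      intro p
      rw [Finset.sum_eq_single p]
      · rw [if_pos rfl]; ring
      · intro q _ hq
        rw [if_neg (Ne.symm hq)]; ring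
      · simp
    simp only [h1]
    rw [← Finset.mul_sum]
    ring
  · -- the formula
    have h1 : (-1) ^ 3 * gbc e R = 1 / ((8 * Real.pi) ^ 3 * (3 : ℕ).factorial) *
        gm (fun _ : Fin 3 => (fun i j k l => c * unitCurv i j k l -
          ∑ a, nu (fun p => Real.sqrt (lam p) • g p) a i j *
            nu (fun p => Real.sqrt (lam p) • g p) a k l : T4 3)) := by
      rw [gbc_eq]
      congr 2
      funext _ i j k l
      have h3 := hg i j k l
      unfold EE at h3
      rw [h3, ← hEν i j k l, hEdef, ← cp_unit e]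
      simp only [cp, negT, addT]
      ring
    rw [gm_F _ hc0, F_thr] at h1
    have hw2 := w2_eq hF.ev hF.ov
    have hw3 := w3_tri hF
    rw [hNc] at hw2
    have hsh := T.shift (5 * (c + κ) / 5)
    simp only [sub_add_cancel] at hsh
    rw [hcard] at hsh
    rw [hsh] at hw3
    have hl2 : ∑ a, lam a ^ 2 = ∑ a, (lam a - 5 * (c + κ) / 5) ^ 2 + 15 * (c + κ) ^ 2 := by
      have e1 : ∀ a, lam a ^ 2 = (lam a - 5 * (c + κ) / 5) ^ 2 +
          2 * (c + κ) * (lam a - 5 * (c + κ) / 5) + (c + κ) ^ 2 := by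
        intro a; ring
      rw [Finset.sum_congr rfl fun a _ => e1 a, Finset.sum_add_distrib, Finset.sum_add_distrib,
        ← Finset.mul_sum, T.sm, Finset.sum_const, Finset.card_univ, hcard, nsmul_eq_mul]
      push_cast
      ring
    rw [hl2] at hw2
    have g0 : GG 3 c 0 = 5760 * c ^ 3 := by
      unfold GG
      norm_num [Nat.factorial]
      ring
    have g1 : GG 3 c 1 = 288 * c ^ 2 := by
      unfold GG
      norm_num [Nat.factorial]
      ring
    have g2 : GG 3 c 2 = 12 * c := by
      unfold GG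
      norm_num [Nat.factorial, Nat.choose]
      ring
    have g3 : GG 3 c 3 = 1 := by
      unfold GG
      norm_num [Nat.factorial, Nat.choose]
    have t0 : TT (nu fun p => Real.sqrt (lam p) • g p) c 0 = 5760 * c ^ 3 := by
      rw [TT_eq, w_zero, g0]
      ring
    have t1 : TT (nu fun p => Real.sqrt (lam p) • g p) c 1 =
        288 * c ^ 2 * (2 * (6 * (5 * (c + κ)))) := by
      rw [TT_eq, w_one hF.ev.bi.anti, hF.ev.tt, hNc, g1]
      push_cast
      ring
    have t2 : TT (nu fun p => Real.sqrt (lam p) • g p) c 2 =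
        12 * c * w (nu fun p => Real.sqrt (lam p) • g p) 2 := by
      rw [TT_eq, g2]
    have t3 : TT (nu fun p => Real.sqrt (lam p) • g p) c 3 =
        w (nu fun p => Real.sqrt (lam p) • g p) 3 := by
      rw [TT_eq, g3, one_mul]
    rw [t0, t1, t2, t3, hw2, hw3] at h1
    rw [roundGB_three]
    have h2 : gbc e R = -((-1) ^ 3 * gbc e R) := by ring
    rw [h2, h1]
    push_cast
    ring
  · intro t ht a
    have hCt : AlgCurv (addT R fun x y z w => t * unitT x y z w) := add_curv hR (unit_curv t)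
    have hBt : BiForm (addT R fun x y z w => t * unitT x y z w) :=
      ⟨hCt.add, hCt.smul, hCt.anti, hCt.pair⟩
    have h1 := CN_of (fun i => e i) hBt ht (fun p => g a p.1 p.2)
    simp only [hcoord] at h1
    have h2 : ∀ i j k l, R (e i) (e j) (e k) (e l) + t * unitCurv i j k l =
        ∑ r, (lam r - 5 * (c + κ) / 5 + κ + t) * (g r i j * g r k l) := by
      intro i j k l
      have a1 := hRc i j k l
      have a2 : ∑ p, g p i j * g p k l = unitCurv i j k l := hcomp i j k l
      have a3 : ∑ r, (lam r - 5 * (c + κ) / 5 + κ + t) * (g r i j * g r k l) =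
          ∑ r, (lam r - 5 * (c + κ) / 5) * (g r i j * g r k l) +
            (κ + t) * ∑ r, g r i j * g r k l := by
        rw [Finset.mul_sum, ← Finset.sum_add_distrib]
        exact Finset.sum_congr rfl fun p _ => by ring
      rw [a3, ← a1, a2]; ring
    simp only [h2] at h1
    rw [quad_g _ _ _ hgg, Finset.sum_eq_single a] at h1
    · rw [if_pos rfl] at h1
      linarith
    · intro b _ hb
      rw [if_neg hb]; ring
    · simp
  · intro t ht a
    have hCt : AlgCurv (addT (negT R) fun x y z w => t * unitT x y z w) :=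
      add_curv (neg_curv hR) (unit_curv t)
    have hBt : BiForm (addT (negT R) fun x y z w => t * unitT x y z w) :=
      ⟨hCt.add, hCt.smul, hCt.anti, hCt.pair⟩
    have h1 := CN_of (fun i => e i) hBt ht (fun p => g a p.1 p.2)
    have hcoord' : ∀ i j k l, addT (negT R) (fun x y z w => t * unitT x y z w) (e i) (e j) (e k)
        (e l) = -R (e i) (e j) (e k) (e l) + t * unitCurv i j k l := by
      intro i j k l
      unfold addT negT
      simp only [cp_unit]
    simp only [hcoord'] at h1
    have h2 : ∀ i j k l, -R (e i) (e j) (e k) (e l) + t * unitCurv i j k l =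
        ∑ r, (t - κ - (lam r - 5 * (c + κ) / 5)) * (g r i j * g r k l) := by
      intro i j k l
      have a1 := hRc i j k l
      have a2 : ∑ p, g p i j * g p k l = unitCurv i j k l := hcomp i j k l
      have a3 : ∑ r, (t - κ - (lam r - 5 * (c + κ) / 5)) * (g r i j * g r k l) =
          (t - κ) * ∑ r, g r i j * g r k l -
            ∑ r, (lam r - 5 * (c + κ) / 5) * (g r i j * g r k l) := by
        rw [Finset.mul_sum, ← Finset.sum_sub_distrib]
        exact Finset.sum_congr rfl fun p _ => by ring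
      rw [a3, ← a1, a2]; ring
    simp only [h2] at h1
    rw [quad_g _ _ _ hgg, Finset.sum_eq_single a] at h1
    · rw [if_pos rfl] at h1
      linarith
    · intro b _ hb
      rw [if_neg hb]; ring
    · simp

end point

end Pool.Agent.U486.EW
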