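import Pool.Agent.U486.EW.Exa

/-!
# Einstein tensors with a two-sided bound of the curvature operator
-/

set_option autoImplicit false

namespace Pool.Agent.U486.EW

open Finset Pool.Agent.TH594.HP Pool.Agent.TH594.HE MeasureTheory
open Pool.Agent.W666.GB (AlgCurv gbc scal roundGB unitCurv CurvField)
open Pool.Agent.W669.HD (T4 gm cp negT addT unitT OpNonneg BiForm gbc_eq cp_unit unit_bi unit_curv
  add_curv sq_real)

variable {V : Type} [NormedAddCommGroup V] [InnerProductSpace ℝ V]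

/-- `R` is an algebraic curvature tensor in dimension six with Ricci tensor `5 s κ` times the scalar
product, and the eigenvalues of the curvature operator of `s R` lie between `-β κ` and `γ κ` -/
structure Two (e : OrthonormalBasis (Fin 3 × Bool) ℝ V) (s κ β γ : ℝ)
    (R : V → V → V → V → ℝ) : Prop where
  curv : AlgCurv R
  ein : Einstein e R (s * κ)
  low : OpNonneg fun x y z w => s * R x y z w + β * κ * unitT x y z w
  high : OpNonneg fun x y z w => γ * κ * unitT x y z w - s * R x y z w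

/-- the inequality for positive Ricci tensor -/
theorem two_low (e : OrthonormalBasis (Fin 3 × Bool) ℝ V) {R : V → V → V → V → ℝ}
    (hR : AlgCurv R) {κ β γ : ℝ} (hE : Einstein e R κ)
    (h1 : OpNonneg (addT R fun x y z w => (β * κ) * unitT x y z w))
    (h2 : OpNonneg (addT (negT R) fun x y z w => (γ * κ) * unitT x y z w)) :
    roundGB 3 1 * (κ ^ 3 * (1 - (1 + β) * (γ - 1) ^ 2 / 6) +
      κ * (5 - 3 * γ - β) * wsq e R κ / 90) ≤ gbc e R ∧
    wsq e R κ ≤ 15 * ((1 + β) * (γ - 1)) * κ ^ 2 ∧ 0 ≤ (1 + β) * κ ∧ 0 ≤ (γ - 1) * κ := by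
  obtain ⟨p, P, u, C, T, hcard, hw, hg, hlo, hhi⟩ := reduceW e hR hE
  have b1 := hlo _ h1
  have b2 := hhi _ h2
  rw [← hw, hg]
  set m := (1 + β) * κ with hm
  set M := (γ - 1) * κ with hM
  have T' := T.toTri.neg
  have c1 : ∀ a, -M ≤ -u a := fun a => by
    have := b2 a
    rw [hM]; linarith
  have c2 : ∀ a, -u a ≤ m := fun a => by
    have := b1 a
    rw [hm]; linarith
  have k1 := T'.two_sided hcard (κ := κ) c1 c2
  have k2 := T'.norm_le hcard c1 c2
  simp only [sv_neg, neg_sq] at k1 k2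
  have e1 : ∑ a, -u a * sv p u a = -∑ a, u a * sv p u a := by
    rw [← Finset.sum_neg_distrib]
    exact Finset.sum_congr rfl fun a _ => by ring
  have e2 : ∑ a, (-u a) ^ 3 = -∑ a, u a ^ 3 := by
    rw [← Finset.sum_neg_distrib]
    exact Finset.sum_congr rfl fun a _ => by ring
  rw [e1, e2] at k1
  have hcard' : (univ : Finset (Pr (Fin 3 × Bool))).card = 15 := by rw [Finset.card_univ, hcard]
  have hm0 : 0 ≤ m := by
    have := Finset.sum_le_sum fun a (_ : a ∈ univ) => c2 a
    rw [T'.sm, Finset.sum_const, hcard', nsmul_eq_mul] at this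
    push_cast at this
    linarith
  have hM0 : 0 ≤ M := by
    have := Finset.sum_le_sum fun a (_ : a ∈ univ) => c1 a
    rw [T'.sm, Finset.sum_const, hcard', nsmul_eq_mul] at this
    push_cast at this
    linarith
  refine ⟨mul_le_mul_of_nonneg_left ?_ rpos.le, ?_, hm0, hM0⟩
  · have e3 : κ ^ 3 * (1 - (1 + β) * (γ - 1) ^ 2 / 6) +
        κ * (5 - 3 * γ - β) * (∑ a, u a ^ 2) / 90 =
        (90 * κ ^ 3 - 15 * m * M ^ 2 + (3 * κ - 3 * M - m) * (∑ a, u a ^ 2)) / 90 := by
      rw [hm, hM]; ring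
    rw [e3]
    linarith
  · refine le_trans k2 (le_of_eq ?_)
    rw [hm, hM]; ring

/-- the inequality for both signs -/
theorem Two.main {e : OrthonormalBasis (Fin 3 × Bool) ℝ V} {s κ β γ : ℝ}
    {R : V → V → V → V → ℝ} (h : Two e s κ β γ R) (hs : s = 1 ∨ s = -1) :
    roundGB 3 1 * (κ ^ 3 * (1 - (1 + β) * (γ - 1) ^ 2 / 6) +
      κ * (5 - 3 * γ - β) * wsq e R (s * κ) / 90) ≤ s * gbc e R ∧
    wsq e R (s * κ) ≤ 15 * ((1 + β) * (γ - 1)) * κ ^ 2 ∧ 0 ≤ (1 + β) * κ ∧ 0 ≤ (γ - 1) * κ := by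
  rcases hs with rfl | rfl
  · have h1 := h.ein
    rw [one_mul] at h1 ⊢
    rw [one_mul]
    refine two_low e h.curv h1 ?_ ?_
    · have := h.low
      simp only [one_mul] at this
      exact this
    · have := h.high
      simp only [one_mul] at this
      intro n x y
      have h3 := this n x y
      refine le_trans h3 (le_of_eq ?_)
      refine Finset.sum_congr rfl fun a _ => Finset.sum_congr rfl fun b _ => ?_
      simp only [addT, negT]; ring
  · have h1 := h.ein
    have hE' := h1.neg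
    rw [neg_one_mul, neg_neg] at hE'
    have h2 := two_low e (neg_curv h.curv) (κ := κ) (β := β) (γ := γ) hE' ?_ ?_
    · have e1 : gbc e (negT R) = - gbc e R := by
        have h4 := gbc_neg e R
        have h5 : (-1 : ℝ) ^ 3 * gbc e (negT R) = - gbc e (negT R) := by ring
        rw [h5] at h4
        linarith
      have e2 : wsq e (negT R) κ = wsq e R (-1 * κ) := by
        unfold wsq
        congr 1
        refine Finset.sum_congr rfl fun i _ => Finset.sum_congr rfl fun j _ =>
          Finset.sum_congr rfl fun k _ => Finset.sum_congr rfl fun l _ => ?_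
        simp only [negT]; ring
      rw [e1, e2] at h2
      rw [neg_one_mul (gbc e R)]
      exact h2
    · intro n x y
      have h3 := h.low n x y
      refine le_trans h3 (le_of_eq ?_)
      refine Finset.sum_congr rfl fun a _ => Finset.sum_congr rfl fun b _ => ?_
      simp only [addT, negT]; ring
    · intro n x y
      have h3 := h.high n x y
      refine le_trans h3 (le_of_eq ?_)
      refine Finset.sum_congr rfl fun a _ => Finset.sum_congr rfl fun b _ => ?_
      simp only [addT, negT]; ring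

/-- the bounds in terms of `β`, `γ` -/
theorem Two.val {e : OrthonormalBasis (Fin 3 × Bool) ℝ V} {s κ β γ : ℝ}
    {R : V → V → V → V → ℝ} (h : Two e s κ β γ R) (hs : s = 1 ∨ s = -1) (hκ : 0 < κ)
    (h5 : 5 ≤ 3 * γ + β) :
    roundGB 3 1 * (κ ^ 3 * (1 - (1 + β) * (γ - 1) * (4 * γ + β - 6) / 6)) ≤ s * gbc e R := by
  obtain ⟨h1, h2, -, -⟩ := h.main hs
  refine le_trans (mul_le_mul_of_nonneg_left ?_ rpos.le) h1
  have h3 := mul_le_mul_of_nonneg_left h2 (mul_nonneg hκ.le (by linarith : 0 ≤ 3 * γ + β - 5))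
  have e1 : κ ^ 3 * (1 - (1 + β) * (γ - 1) * (4 * γ + β - 6) / 6) =
      κ ^ 3 * (1 - (1 + β) * (γ - 1) ^ 2 / 6) -
        κ * (3 * γ + β - 5) * (15 * ((1 + β) * (γ - 1)) * κ ^ 2) / 90 := by ring
  rw [e1]
  linarith

/-- the bound for narrow intervals -/
theorem Two.val' {e : OrthonormalBasis (Fin 3 × Bool) ℝ V} {s κ β γ : ℝ}
    {R : V → V → V → V → ℝ} (h : Two e s κ β γ R) (hs : s = 1 ∨ s = -1) (hκ : 0 < κ)
    (h5 : 3 * γ + β ≤ 5) :
    roundGB 3 1 * (κ ^ 3 * (1 - (1 + β) * (γ - 1) ^ 2 / 6)) ≤ s * gbc e R ∧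
      0 < 1 - (1 + β) * (γ - 1) ^ 2 / 6 := by
  obtain ⟨h1, h2, h3, h4⟩ := h.main hs
  constructor
  · refine le_trans (mul_le_mul_of_nonneg_left ?_ rpos.le) h1
    have := mul_nonneg (mul_nonneg hκ.le (by linarith : 0 ≤ 5 - 3 * γ - β))
      (wsq_nonneg e R (s * κ))
    linarith
  · have h6 : 0 ≤ 1 + β := nonneg_of_mul_nonneg_left h3 hκ
    have h7 : 0 ≤ γ - 1 := nonneg_of_mul_nonneg_left h4 hκ
    have h8 : (γ - 1) ^ 2 ≤ 1 := by nlinarith
    have h9 : (1 + β) * (γ - 1) ^ 2 ≤ 3 * (γ - 1) ^ 2 :=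
      mul_le_mul_of_nonneg_right (by linarith) (sq_nonneg _)
    linarith

theorem Two.nonneg {e : OrthonormalBasis (Fin 3 × Bool) ℝ V} {s κ β γ : ℝ}
    {R : V → V → V → V → ℝ} (h : Two e s κ β γ R) (hs : s = 1 ∨ s = -1) (hκ : 0 < κ)
    (h6 : (1 + β) * (γ - 1) * (4 * γ + β - 6) ≤ 6) : 0 ≤ s * gbc e R := by
  rcases le_total 5 (3 * γ + β) with h5 | h5
  · refine le_trans (mul_nonneg rpos.le (mul_nonneg (by positivity) (by linarith)))
      (h.val hs hκ h5)
  · obtain ⟨h7, h8⟩ := h.val' hs hκ h5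
    exact le_trans (mul_nonneg rpos.le (mul_nonneg (by positivity) h8.le)) h7

theorem Two.pos {e : OrthonormalBasis (Fin 3 × Bool) ℝ V} {s κ β γ : ℝ}
    {R : V → V → V → V → ℝ} (h : Two e s κ β γ R) (hs : s = 1 ∨ s = -1) (hκ : 0 < κ)
    (h6 : (1 + β) * (γ - 1) * (4 * γ + β - 6) < 6) : 0 < s * gbc e R := by
  rcases le_total 5 (3 * γ + β) with h5 | h5
  · refine lt_of_lt_of_le (mul_pos rpos (mul_pos (by positivity) (by linarith)))
      (h.val hs hκ h5)
  · obtain ⟨h7, h8⟩ := h.val' hs hκ h5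
    exact lt_of_lt_of_le (mul_pos rpos (mul_pos (by positivity) h8)) h7

/-! ### the product of two space forms -/

/-- a diagonal operator with nonnegative entries is nonnegative -/
theorem diag_nonneg (e : OrthonormalBasis (Fin 3 × Bool) ℝ V)
    (t : Fin 3 × Bool → Fin 3 × Bool → ℝ) (ht : ∀ p q, 0 ≤ t p q) (hs : ∀ p q, t p q = t q p) :
    OpNonneg fun x y z w : V => ∑ p, ∑ q, t p q * ((inner ℝ (e p) x * inner ℝ (e q) y) *
      (inner ℝ (e p) z * inner ℝ (e q) w - inner ℝ (e q) z * inner ℝ (e p) w)) := by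
  intro n x y
  set A : Fin 3 × Bool → Fin 3 × Bool → ℝ := fun p q =>
    ∑ a, inner ℝ (e p) (x a) * inner ℝ (e q) (y a) with hA
  have e1 : ∑ a, ∑ b, ∑ p, ∑ q, t p q * ((inner ℝ (e p) (x a) * inner ℝ (e q) (y a)) *
      (inner ℝ (e p) (x b) * inner ℝ (e q) (y b) - inner ℝ (e q) (x b) * inner ℝ (e p) (y b))) =
      ∑ p, ∑ q, t p q * (A p q * (A p q - A q p)) := by
    calc _ = ∑ a, ∑ p, ∑ b, ∑ q, t p q * ((inner ℝ (e p) (x a) * inner ℝ (e q) (y a)) *
      (inner ℝ (e p) (x b) * inner ℝ (e q) (y b) - inner ℝ (e q) (x b) * inner ℝ (e p) (y b))) :=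
          Finset.sum_congr rfl fun a _ => Finset.sum_comm
      _ = ∑ p, ∑ a, ∑ b, ∑ q, t p q * ((inner ℝ (e p) (x a) * inner ℝ (e q) (y a)) *
      (inner ℝ (e p) (x b) * inner ℝ (e q) (y b) - inner ℝ (e q) (x b) * inner ℝ (e p) (y b))) :=
          Finset.sum_comm
      _ = ∑ p, ∑ a, ∑ q, ∑ b, t p q * ((inner ℝ (e p) (x a) * inner ℝ (e q) (y a)) *
      (inner ℝ (e p) (x b) * inner ℝ (e q) (y b) - inner ℝ (e q) (x b) * inner ℝ (e p) (y b))) :=
          Finset.sum_congr rfl fun p _ => Finset.sum_congr rfl fun a _ => Finset.sum_comm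
      _ = ∑ p, ∑ q, ∑ a, ∑ b, t p q * ((inner ℝ (e p) (x a) * inner ℝ (e q) (y a)) *
      (inner ℝ (e p) (x b) * inner ℝ (e q) (y b) - inner ℝ (e q) (x b) * inner ℝ (e p) (y b))) :=
          Finset.sum_congr rfl fun p _ => Finset.sum_comm
      _ = _ := by
          refine Finset.sum_congr rfl fun p _ => Finset.sum_congr rfl fun q _ => ?_
          rw [hA]
          simp only [← Finset.mul_sum]
          rw [← Finset.sum_sub_distrib, Finset.sum_mul_sum]
          congr 1
          refine Finset.sum_congr rfl fun a _ => ?_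
          rw [Finset.mul_sum]
  rw [e1]
  have e2 : ∑ p, ∑ q, t p q * (A p q * (A p q - A q p)) =
      1 / 2 * ∑ p, ∑ q, t p q * (A p q - A q p) ^ 2 := by
    have e3 : ∑ p, ∑ q, t p q * (A p q * (A p q - A q p)) =
        ∑ p, ∑ q, t p q * (A q p * (A q p - A p q)) := by
      rw [Finset.sum_comm]
      refine Finset.sum_congr rfl fun p _ => Finset.sum_congr rfl fun q _ => ?_
      rw [hs p q]
    have e4 : ∑ p, ∑ q, t p q * (A p q - A q p) ^ 2 =
        ∑ p, ∑ q, t p q * (A p q * (A p q - A q p)) +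
          ∑ p, ∑ q, t p q * (A q p * (A q p - A p q)) := by
      simp only [← Finset.sum_add_distrib]
      refine Finset.sum_congr rfl fun p _ => Finset.sum_congr rfl fun q _ => ?_
      ring
    rw [e4, ← e3]; ring
  rw [e2]
  have : 0 ≤ ∑ p, ∑ q, t p q * (A p q - A q p) ^ 2 :=
    Finset.sum_nonneg fun p _ => Finset.sum_nonneg fun q _ => mul_nonneg (ht p q) (sq_nonneg _)
  linarith

theorem unitT_diag (e : OrthonormalBasis (Fin 3 × Bool) ℝ V) (x y z w : V) :
    unitT x y z w = ∑ p, ∑ q, ((inner ℝ (e p) x * inner ℝ (e q) y) *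
      (inner ℝ (e p) z * inner ℝ (e q) w - inner ℝ (e q) z * inner ℝ (e p) w)) := by
  unfold unitT
  have h : ∀ x y : V, inner ℝ x y = ∑ p, inner ℝ (e p) x * inner ℝ (e p) y := by
    intro x y
    rw [← e.sum_inner_mul_inner x y]
    exact Finset.sum_congr rfl fun p _ => by rw [real_inner_comm x]
  rw [h x z, h y w, h x w, h y z, Finset.sum_mul_sum, Finset.sum_mul_sum,
    ← Finset.sum_sub_distrib]
  refine Finset.sum_congr rfl fun p _ => ?_
  rw [← Finset.sum_sub_distrib]
  refine Finset.sum_congr rfl fun q _ => ?_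
  ring

theorem prodT_diag (e : OrthonormalBasis (Fin 3 × Bool) ℝ V) (k : ℝ) (x y z w : V) :
    prodT e k x y z w = ∑ p, ∑ q, (if p.2 = q.2 then k else 0) *
      ((inner ℝ (e p) x * inner ℝ (e q) y) *
        (inner ℝ (e p) z * inner ℝ (e q) w - inner ℝ (e q) z * inner ℝ (e p) w)) := by
  unfold prodT gg
  simp only [Fintype.sum_prod_type, Fin.sum_univ_three, Fintype.sum_bool]
  simp
  ring

/-- the product of two space forms of dimension three -/
theorem prodT_two (e : OrthonormalBasis (Fin 3 × Bool) ℝ V) {s κ : ℝ} (hs : s = 1 ∨ s = -1)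
    (hκ : 0 ≤ κ) : Two e s κ 0 (5 / 2) (prodT e (5 / 2 * (s * κ))) where
  curv := prodT_curv _ _
  ein := prodT_Einstein _ _
  low := by
    have e1 : (fun x y z w : V => s * prodT e (5 / 2 * (s * κ)) x y z w +
        0 * κ * unitT x y z w) = fun x y z w : V => ∑ p, ∑ q,
          (if p.2 = q.2 then 5 / 2 * κ else 0) * ((inner ℝ (e p) x * inner ℝ (e q) y) *
        (inner ℝ (e p) z * inner ℝ (e q) w - inner ℝ (e q) z * inner ℝ (e p) w)) := by
      funext x y z w
      rw [← prodT_diag]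
      unfold prodT
      rcases hs with rfl | rfl <;> ring
    rw [e1]
    refine diag_nonneg e (fun p q => if p.2 = q.2 then 5 / 2 * κ else 0) ?_ ?_
    · intro p q
      split_ifs <;> positivity
    · intro p q
      by_cases h : p.2 = q.2
      · simp only [if_pos h, if_pos h.symm]
      · simp only [if_neg h, if_neg fun h' => h (Eq.symm h')]
  high := by
    have e1 : (fun x y z w : V => 5 / 2 * κ * unitT x y z w -
        s * prodT e (5 / 2 * (s * κ)) x y z w) = fun x y z w : V => ∑ p, ∑ q,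
          (if p.2 = q.2 then 0 else 5 / 2 * κ) * ((inner ℝ (e p) x * inner ℝ (e q) y) *
        (inner ℝ (e p) z * inner ℝ (e q) w - inner ℝ (e q) z * inner ℝ (e p) w)) := by
      funext x y z w
      have e2 : s * prodT e (5 / 2 * (s * κ)) x y z w = prodT e (5 / 2 * κ) x y z w := by
        unfold prodT
        rcases hs with rfl | rfl <;> ring
      rw [e2, prodT_diag, unitT_diag e, Finset.mul_sum, ← Finset.sum_sub_distrib]
      refine Finset.sum_congr rfl fun p _ => ?_
      rw [Finset.mul_sum, ← Finset.sum_sub_distrib]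
      refine Finset.sum_congr rfl fun q _ => ?_
      split_ifs <;> ring
    rw [e1]
    refine diag_nonneg e (fun p q => if p.2 = q.2 then 0 else 5 / 2 * κ) ?_ ?_
    · intro p q
      split_ifs <;> positivity
    · intro p q
      by_cases h : p.2 = q.2
      · simp only [if_pos h, if_pos h.symm]
      · simp only [if_neg h, if_neg fun h' => h (Eq.symm h')]

end Pool.Agent.U486.EW
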